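import Pool.Agent.W918.ES.Gr
import Pool.Agent.W795.TQ.DFin

/-!
# The energy of the difference of two strong solutions
-/

set_option autoImplicit false
set_option linter.all false

open MeasureTheory Set Filter Topology
open scoped InnerProductSpace

namespace Pool.Agent.U571.AP

open Pool.Agent.W795.TQ (Str FH)
open H772R2.NSR (Frame prim_cont memLp_ii ae_deriv_of_prim)
open H772R2.NSG (St ii_of_int int_inner)
open Pool.Agent.W790.TQ (toSt sq_prim prim_shift')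
open Pool.Agent.W918.ES (gronL1)

section

variable {H K : Type} [NormedAddCommGroup H] [InnerProductSpace ℝ H] [CompleteSpace H]
  [NormedAddCommGroup K] [InnerProductSpace ℝ K] [CompleteSpace K]
  {W : Submodule ℝ (H × K)} {m : H → K} {C ν T δ : ℝ}

/-- the pointwise inequality -/
theorem pt (Fr : Frame W m C) (hν : 0 < ν) (hδ : 0 < δ) {w1 w v : H} {q y f : K} {Λ : ℝ}
    (hw : (w, q) ∈ W) (hv : (v, y) ∈ W)
    (heq : ⟪w1, w⟫_ℝ = ⟪f - ν • q + (m (v + w) - m v), q⟫_ℝ)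
    (hform : -⟪m w, y⟫_ℝ ≤ (1 - δ) * ν * ‖q‖ ^ 2 + Λ * ‖w‖ ^ 2) :
    2 * ⟪w1, w⟫_ℝ + δ * ν * ‖q‖ ^ 2 ≤ 2 * Λ * ‖w‖ ^ 2 + 1 / (δ * ν) * ‖f‖ ^ 2 := by
  have h1 := Fr.anti (v + w, y + q) (W.add_mem hv hw) (v, y) hv
  simp only [add_sub_cancel_left] at h1
  rw [inner_add_left, inner_sub_left, real_inner_smul_left, real_inner_self_eq_norm_sq, h1] at heq
  have h2 := real_inner_le_norm f q
  have hδν : 0 < δ * ν := by positivity
  have h3 : 2 * (‖f‖ * ‖q‖) ≤ 1 / (δ * ν) * ‖f‖ ^ 2 + δ * ν * ‖q‖ ^ 2 := by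
    have e : 1 / (δ * ν) * ‖f‖ ^ 2 + δ * ν * ‖q‖ ^ 2 - 2 * (‖f‖ * ‖q‖) =
        (δ * ν) * (1 / (δ * ν) * ‖f‖ - ‖q‖) ^ 2 := by
      field_simp
      ring
    have : 0 ≤ (δ * ν) * (1 / (δ * ν) * ‖f‖ - ‖q‖) ^ 2 := by positivity
    linarith
  rw [heq]
  nlinarith

/-- the integrated inequality -/
theorem core (hν : 0 < ν) (hδ : 0 < δ) (hT : 0 < T) {w w1 : ℝ → H} {q f : ℝ → K}
    {Λ : ℝ → ℝ} (h1 : MemLp w1 2 (volume.restrict (Ioc 0 T)))
    (hp : ∀ a b, 0 ≤ a → a ≤ b → b ≤ T → w b - w a = ∫ s in a..b, w1 s)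
    (hpt : ∀ᵐ s ∂(volume.restrict (Ioc 0 T)), 2 * ⟪w1 s, w s⟫_ℝ + δ * ν * ‖q s‖ ^ 2 ≤
      2 * Λ s * ‖w s‖ ^ 2 + 1 / (δ * ν) * ‖f s‖ ^ 2)
    (hΛ0 : ∀ t, 0 ≤ Λ t) (hΛi : IntervalIntegrable Λ volume 0 T)
    (hqi : Integrable (fun s => ‖q s‖ ^ 2) (volume.restrict (Ioc 0 T)))
    (hfi : Integrable (fun s => ‖f s‖ ^ 2) (volume.restrict (Ioc 0 T))) {t : ℝ}
    (ht : t ∈ Icc 0 T) :
    ‖w t‖ ^ 2 + δ * ν * ∫ s in (0 : ℝ)..t, ‖q s‖ ^ 2 ≤
      (‖w 0‖ ^ 2 + 1 / (δ * ν) * ∫ s in (0 : ℝ)..T, ‖f s‖ ^ 2) *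
        Real.exp (∫ s in (0 : ℝ)..t, 2 * Λ s) := by
  have hδν : 0 < δ * ν := by positivity
  have hwc := prim_cont h1 hp
  set k : ℝ := ‖w 0‖ ^ 2 + 1 / (δ * ν) * ∫ s in (0 : ℝ)..T, ‖f s‖ ^ 2 with hk
  set Y : ℝ → ℝ := fun t => ‖w t‖ ^ 2 + δ * ν * ∫ s in (0 : ℝ)..t, ‖q s‖ ^ 2 with hY
  have hqp : ∀ a b : ℝ, 0 ≤ a → a ≤ b → b ≤ T →
      IntervalIntegrable (fun s => ‖q s‖ ^ 2) volume a b := fun a b ha hab hb =>
    ii_of_int hqi ha hab hb
  have hfp : ∀ a b : ℝ, 0 ≤ a → a ≤ b → b ≤ T →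
      IntervalIntegrable (fun s => ‖f s‖ ^ 2) volume a b := fun a b ha hab hb =>
    ii_of_int hfi ha hab hb
  have hYc : ContinuousOn Y (Icc 0 t) := by
    have hc1 : ContinuousOn (fun t => ‖w t‖ ^ 2) (Icc 0 t) :=
      (hwc.norm.pow 2).mono (Icc_subset_Icc le_rfl ht.2)
    have hc2 : ContinuousOn (fun t => ∫ s in (0 : ℝ)..t, ‖q s‖ ^ 2) (Icc 0 t) := by
      have := intervalIntegral.continuousOn_primitive_interval (μ := volume)
        (f := fun s => ‖q s‖ ^ 2) (a := 0) (b := t) (by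
          have h := (hqp 0 t le_rfl ht.1 ht.2)
          rw [intervalIntegrable_iff_integrableOn_Icc_of_le ht.1] at h
          rwa [uIcc_of_le ht.1])
      rwa [uIcc_of_le ht.1] at this
    exact hc1.add (continuousOn_const.mul hc2)
  have hβi : IntervalIntegrable (fun s => 2 * Λ s) volume 0 t := by
    refine (hΛi.mono_set ?_).const_mul 2
    rw [uIcc_of_le ht.1, uIcc_of_le hT.le]
    exact Icc_subset_Icc le_rfl ht.2
  refine gronL1 (y := Y) (β := fun s => 2 * Λ s) (k := k) ht.1 hYc hβi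
    (fun s => by have := hΛ0 s; positivity) ?_
  intro r hr
  have hrT : r ≤ T := hr.2.trans ht.2
  have e1 := sq_prim h1 hp le_rfl hr.1 hrT
  have hβr : IntervalIntegrable (fun s => 2 * Λ s) volume 0 r := by
    refine hβi.mono_set ?_
    rw [uIcc_of_le hr.1, uIcc_of_le ht.1]
    exact Icc_subset_Icc le_rfl hr.2
  have hwi : IntervalIntegrable (fun s => 2 * Λ s * ‖w s‖ ^ 2) volume 0 r := by
    apply hβr.mul_continuousOn
    rw [uIcc_of_le hr.1]
    exact (hwc.norm.pow 2).mono (Icc_subset_Icc le_rfl hrT)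
  have hYi : IntervalIntegrable (fun s => 2 * Λ s * Y s) volume 0 r := by
    apply hβr.mul_continuousOn
    rw [uIcc_of_le hr.1]
    exact hYc.mono (Icc_subset_Icc le_rfl hr.2)
  have hIi : IntervalIntegrable (fun s => 2 * ⟪w1 s, w s⟫_ℝ) volume 0 r := by
    refine (ii_of_int (T := T) (int_inner h1 (by
        obtain ⟨B, hB⟩ := (isCompact_Icc.image_of_continuousOn hwc).isBounded.exists_norm_le
        refine MemLp.of_bound ((hwc.mono Ioc_subset_Icc_self).aestronglyMeasurable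
          measurableSet_Ioc) B ?_
        filter_upwards [ae_restrict_mem measurableSet_Ioc] with s hs
        exact hB _ ⟨s, Ioc_subset_Icc_self hs, rfl⟩)) le_rfl hr.1 hrT).const_mul 2
  have e2 : ∫ s in (0 : ℝ)..r, (2 * ⟪w1 s, w s⟫_ℝ + δ * ν * ‖q s‖ ^ 2) ≤
      ∫ s in (0 : ℝ)..r, (2 * Λ s * ‖w s‖ ^ 2 + 1 / (δ * ν) * ‖f s‖ ^ 2) := by
    refine intervalIntegral.integral_mono_ae_restrict hr.1
      (hIi.add ((hqp 0 r le_rfl hr.1 hrT).const_mul _))
      (hwi.add ((hfp 0 r le_rfl hr.1 hrT).const_mul _)) ?_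
    have := ae_mono (Measure.restrict_mono (Ioc_subset_Ioc_right hrT) le_rfl) hpt
    rw [Filter.EventuallyLE, ← restrict_Ioc_eq_restrict_Icc]
    exact this
  rw [intervalIntegral.integral_add hIi ((hqp 0 r le_rfl hr.1 hrT).const_mul _),
    intervalIntegral.integral_add hwi ((hfp 0 r le_rfl hr.1 hrT).const_mul _),
    intervalIntegral.integral_const_mul (δ * ν),
    intervalIntegral.integral_const_mul (1 / (δ * ν))] at e2
  have e3 : ∫ s in (0 : ℝ)..r, ‖f s‖ ^ 2 ≤ ∫ s in (0 : ℝ)..T, ‖f s‖ ^ 2 := by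
    have i1 := intervalIntegral.integral_add_adjacent_intervals (hfp 0 r le_rfl hr.1 hrT)
      (hfp r T hr.1 hrT le_rfl)
    have n1 : 0 ≤ ∫ s in r..T, ‖f s‖ ^ 2 :=
      intervalIntegral.integral_nonneg hrT fun s _ => by positivity
    linarith
  have e4 : ∫ s in (0 : ℝ)..r, 2 * Λ s * ‖w s‖ ^ 2 ≤ ∫ s in (0 : ℝ)..r, 2 * Λ s * Y s := by
    refine intervalIntegral.integral_mono_on hr.1 hwi hYi fun s hs => ?_
    have h5 : ‖w s‖ ^ 2 ≤ Y s := by
      simp only [hY]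
      have : 0 ≤ ∫ s' in (0 : ℝ)..s, ‖q s'‖ ^ 2 :=
        intervalIntegral.integral_nonneg hs.1 fun _ _ => by positivity
      nlinarith
    exact mul_le_mul_of_nonneg_left h5 (by have := hΛ0 s; positivity)
  have e5 : 1 / (δ * ν) * ∫ s in (0 : ℝ)..r, ‖f s‖ ^ 2 ≤
      1 / (δ * ν) * ∫ s in (0 : ℝ)..T, ‖f s‖ ^ 2 :=
    mul_le_mul_of_nonneg_left e3 (by positivity)
  show ‖w r‖ ^ 2 + δ * ν * ∫ s in (0 : ℝ)..r, ‖q s‖ ^ 2 ≤ _
  rw [hk]
  linarith

variable {F F1 E E1 : ℝ → K} {u u1 v v1 : ℝ → H} {z z1 y y1 : ℝ → K}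

/-- the equation at almost every time -/
theorem aeweak (Fr : Frame W m C) (hT : 0 < T) (hF : FH T F F1) (S : Str W m ν T F u u1 z z1) :
    ∀ᵐ s ∂(volume.restrict (Ioc 0 T)), ∀ p ∈ W,
      ⟪u1 s, p.1⟫_ℝ = ⟪F s - ν • z s + m (u s), p.2⟫_ℝ := by
  obtain ⟨Z, St1⟩ := toSt hF S
  exact St1.deriv_weak Fr hT

theorem sqn_int {T : ℝ} {g g1 : ℝ → K} (h1 : MemLp g1 2 (volume.restrict (Ioc 0 T)))
    (hg : ∀ a b, 0 ≤ a → a ≤ b → b ≤ T → g b - g a = ∫ s in a..b, g1 s) :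
    Integrable (fun s => ‖g s‖ ^ 2) (volume.restrict (Ioc 0 T)) := by
  have hc := prim_cont h1 hg
  obtain ⟨B, hB⟩ := (isCompact_Icc.image_of_continuousOn hc).isBounded.exists_norm_le
  have : MemLp g 2 (volume.restrict (Ioc 0 T)) := by
    refine MemLp.of_bound ((hc.mono Ioc_subset_Icc_self).aestronglyMeasurable
      measurableSet_Ioc) B ?_
    filter_upwards [ae_restrict_mem measurableSet_Ioc] with s hs
    exact hB _ ⟨s, Ioc_subset_Icc_self hs, rfl⟩
  exact (memLp_two_iff_integrable_sq_norm this.aestronglyMeasurable).mp this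

/-- the energy of the difference -/
theorem diff_bound (Fr : Frame W m C) (hν : 0 < ν) (hδ : 0 < δ) (hT : 0 < T) (hF : FH T F F1)
    (hE : FH T E E1) (S : Str W m ν T F u u1 z z1) (R : Str W m ν T E v v1 y y1) {Λ : ℝ → ℝ}
    (hΛ0 : ∀ t, 0 ≤ Λ t) (hΛi : IntervalIntegrable Λ volume 0 T)
    (hform : ∀ᵐ s ∂(volume.restrict (Ioc 0 T)), ∀ p ∈ W,
      -⟪m p.1, y s⟫_ℝ ≤ (1 - δ) * ν * ‖p.2‖ ^ 2 + Λ s * ‖p.1‖ ^ 2) {t : ℝ} (ht : t ∈ Icc 0 T) :
    ‖u t - v t‖ ^ 2 + δ * ν * ∫ s in (0 : ℝ)..t, ‖z s - y s‖ ^ 2 ≤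
      (‖u 0 - v 0‖ ^ 2 + 1 / (δ * ν) * ∫ s in (0 : ℝ)..T, ‖F s - E s‖ ^ 2) *
        Real.exp (∫ s in (0 : ℝ)..t, 2 * Λ s) := by
  have hi1 : Integrable u1 (volume.restrict (Ioc 0 T)) := S.u1m.integrable (by norm_num)
  have hi2 : Integrable v1 (volume.restrict (Ioc 0 T)) := R.u1m.integrable (by norm_num)
  have hF1 : Integrable F1 (volume.restrict (Ioc 0 T)) := hF.memLp.integrable (by norm_num)
  have hE1 : Integrable E1 (volume.restrict (Ioc 0 T)) := hE.memLp.integrable (by norm_num)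
  have hz1 : Integrable z1 (volume.restrict (Ioc 0 T)) := S.z1m.integrable (by norm_num)
  have hy1 : Integrable y1 (volume.restrict (Ioc 0 T)) := R.z1m.integrable (by norm_num)
  refine core (w := fun s => u s - v s) (w1 := fun s => u1 s - v1 s) (q := fun s => z s - y s)
    (f := fun s => F s - E s) hν hδ hT (S.u1m.sub R.u1m) ?_ ?_ hΛ0 hΛi ?_ ?_ ht
  · intro a b ha hab hb
    rw [intervalIntegral.integral_sub (ii_of_int hi1 ha hab hb) (ii_of_int hi2 ha hab hb),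
      ← S.pu a b ha hab hb, ← R.pu a b ha hab hb]
    abel
  · filter_upwards [aeweak Fr hT hF S, aeweak Fr hT hE R, hform,
      ae_restrict_mem measurableSet_Ioc] with s k1 k2 k3 hs
    have hsI := Ioc_subset_Icc_self hs
    have m1 := S.mem s hsI
    have m2 := R.mem s hsI
    have m3 : (u s - v s, z s - y s) ∈ W := W.sub_mem m1 m2
    refine pt (v := v s) (y := y s) Fr hν hδ m3 m2 ?_ (k3 _ m3)
    have e1 := k1 _ m3
    have e2 := k2 _ m3
    simp only at e1 e2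
    rw [inner_sub_left, e1, e2, ← inner_sub_left, add_sub_cancel]
    congr 1
    rw [smul_sub]
    abel
  · refine sqn_int (g := fun s => z s - y s) (g1 := fun s => z1 s - y1 s) (S.z1m.sub R.z1m) ?_
    intro a b ha hab hb
    rw [intervalIntegral.integral_sub (ii_of_int hz1 ha hab hb) (ii_of_int hy1 ha hab hb),
      ← S.pz a b ha hab hb, ← R.pz a b ha hab hb]
    abel
  · refine sqn_int (g := fun s => F s - E s) (g1 := fun s => F1 s - E1 s)
      (hF.memLp.sub hE.memLp) ?_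
    intro a b ha hab hb
    rw [intervalIntegral.integral_sub (ii_of_int hF1 ha hab hb) (ii_of_int hE1 ha hab hb),
      ← hF.prim a b ha hab hb, ← hE.prim a b ha hab hb]
    abel

/-- the energy of the time differences -/
theorem shift_bound (Fr : Frame W m C) (hν : 0 < ν) (hδ : 0 < δ)
    (hE : FH T E E1) (R : Str W m ν T E v v1 y y1) {Λ : ℝ → ℝ}
    (hΛ0 : ∀ t, 0 ≤ Λ t) (hΛi : IntervalIntegrable Λ volume 0 T)
    (hform : ∀ᵐ s ∂(volume.restrict (Ioc 0 T)), ∀ p ∈ W,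
      -⟪m p.1, y s⟫_ℝ ≤ (1 - δ) * ν * ‖p.2‖ ^ 2 + Λ s * ‖p.1‖ ^ 2) {h : ℝ} (hh : 0 < h)
    (hhT : h < T) {t : ℝ} (ht : t ∈ Icc 0 (T - h)) :
    ‖v (t + h) - v t‖ ^ 2 ≤
      (‖v h - v 0‖ ^ 2 + 1 / (δ * ν) * ((∫ s in (0 : ℝ)..T, ‖E1 s‖ ^ 2) * h ^ 2)) *
        Real.exp (∫ s in (0 : ℝ)..t, 2 * Λ s) := by
  have hT : 0 < T := hh.trans hhT
  have hδν : 0 < δ * ν := by positivity
  have hT' : 0 < T - h := by linarith
  have hsub : (volume.restrict (Ioc 0 (T - h)) : Measure ℝ) ≤ volume.restrict (Ioc 0 T) :=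
    Measure.restrict_mono (Ioc_subset_Ioc_right (by linarith)) le_rfl
  have hmp : MeasurePreserving (fun s : ℝ => s + h) (volume.restrict (Ioc 0 (T - h)))
      (volume.restrict (Ioc h T)) := by
    have := (measurePreserving_add_right volume h).restrict_preimage
      (measurableSet_Ioc : MeasurableSet (Ioc h T))
    rwa [preimage_add_const_Ioc, sub_self] at this
  have hsh : ∀ {X : Type} [NormedAddCommGroup X] {g : ℝ → X},
      MemLp g 2 (volume.restrict (Ioc 0 T)) →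
      MemLp (fun s => g (s + h) - g s) 2 (volume.restrict (Ioc 0 (T - h))) := by
    intro X _ g hg
    exact ((hg.mono_measure (Measure.restrict_mono (Ioc_subset_Ioc_left hh.le)
      le_rfl)).comp_measurePreserving hmp).sub (hg.mono_measure hsub)
  have hprim : ∀ {X : Type} [NormedAddCommGroup X] [InnerProductSpace ℝ X] [CompleteSpace X]
      {g g1 : ℝ → X}, Integrable g1 (volume.restrict (Ioc 0 T)) →
      (∀ a b, 0 ≤ a → a ≤ b → b ≤ T → g b - g a = ∫ s in a..b, g1 s) →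
      ∀ a b, 0 ≤ a → a ≤ b → b ≤ T - h → (g (b + h) - g b) - (g (a + h) - g a) =
      ∫ s in a..b, (g1 (s + h) - g1 s) := by
    intro X _ _ _ g g1 hgi hg a b ha hab hb
    have i1 : IntervalIntegrable g1 volume a b := ii_of_int hgi ha hab (by linarith)
    have i2 : IntervalIntegrable (fun s => g1 (s + h)) volume a b := by
      have := (ii_of_int hgi (by linarith : 0 ≤ a + h) (by linarith) (by linarith :
        b + h ≤ T)).comp_add_right h
      simpa using this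
    rw [intervalIntegral.integral_sub i2 i1, intervalIntegral.integral_comp_add_right
      (fun s => g1 s), ← hg a b ha hab (by linarith),
      ← hg (a + h) (b + h) (by linarith) (by linarith) (by linarith)]
    abel
  have hi2 : Integrable v1 (volume.restrict (Ioc 0 T)) := R.u1m.integrable (by norm_num)
  have hE1 : Integrable E1 (volume.restrict (Ioc 0 T)) := hE.memLp.integrable (by norm_num)
  have hy1 : Integrable y1 (volume.restrict (Ioc 0 T)) := R.z1m.integrable (by norm_num)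
  have hΛi' : IntervalIntegrable Λ volume 0 (T - h) := by
    refine hΛi.mono_set ?_
    rw [uIcc_of_le hT'.le, uIcc_of_le hT.le]
    exact Icc_subset_Icc le_rfl (by linarith)
  have key := core (w := fun s => v (s + h) - v s) (w1 := fun s => v1 (s + h) - v1 s)
    (q := fun s => y (s + h) - y s) (f := fun s => E (s + h) - E s) hν hδ hT' (hsh R.u1m)
    (hprim hi2 R.pu) (by
      have hw := aeweak Fr hT hE R
      rw [ae_restrict_iff' measurableSet_Ioc] at hw hform ⊢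
      have hw2 := (quasiMeasurePreserving_add_right volume h).ae hw
      filter_upwards [hw, hw2, hform] with s k1 k2 k3 hs
      have hs1 : s ∈ Ioc 0 T := ⟨hs.1, by linarith [hs.2]⟩
      have hs2 : s + h ∈ Ioc 0 T := ⟨by linarith [hs.1], by linarith [hs.2]⟩
      have m1 := R.mem _ (Ioc_subset_Icc_self hs2)
      have m2 := R.mem _ (Ioc_subset_Icc_self hs1)
      have m3 : (v (s + h) - v s, y (s + h) - y s) ∈ W := W.sub_mem m1 m2
      refine pt (v := v s) (y := y s) Fr hν hδ m3 m2 ?_ (k3 hs1 _ m3)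
      have e1 := k2 hs2 _ m3
      have e2 := k1 hs1 _ m3
      simp only at e1 e2
      rw [inner_sub_left, e1, e2, ← inner_sub_left, add_sub_cancel]
      congr 1
      rw [smul_sub]
      abel) hΛ0 hΛi' (sqn_int (hsh R.z1m) (hprim hy1 R.pz))
    (sqn_int (hsh hE.memLp) (hprim hE1 hE.prim)) ht
  have h3 := prim_shift' hE.memLp hE.prim le_rfl hT' hh (by linarith : T - h + h ≤ T)
  rw [sub_add_cancel] at h3
  have h4 : 0 ≤ ∫ s in (0 : ℝ)..t, ‖y (s + h) - y s‖ ^ 2 :=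
    intervalIntegral.integral_nonneg ht.1 fun _ _ => by positivity
  have h5 : 0 ≤ δ * ν * ∫ s in (0 : ℝ)..t, ‖y (s + h) - y s‖ ^ 2 := by positivity
  simp only [zero_add] at key
  refine (by linarith : ‖v (t + h) - v t‖ ^ 2 ≤ _).trans (key.trans ?_)
  gcongr

end

end Pool.Agent.U571.AP
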