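import Pool.Agent.U571.AP.Ler

/-!
# The criterion in the abstract frame
-/

set_option autoImplicit false
set_option linter.all false

open MeasureTheory Set Filter Topology
open scoped InnerProductSpace

namespace Pool.Agent.U571.AP

open Pool.Agent.W795.TQ
open H772R2.NSR (Frame prim_cont memLp_ii ae_deriv_of_prim grad_unique)
open H772R2.NSG (St ii_of_int int_inner norm_m_le)
open Pool.Agent.W790.TQ (toSt sq_prim prim_shift')

section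

variable {H K : Type} [NormedAddCommGroup H] [InnerProductSpace ℝ H] [CompleteSpace H]
  [NormedAddCommGroup K] [InnerProductSpace ℝ K] [CompleteSpace K]
  {W : Submodule ℝ (H × K)} {m : H → K} {C ν T δ : ℝ}
  {F F1 E E1 : ℝ → K} {u u1 v v1 : ℝ → H} {z z1 y y1 : ℝ → K}

/-- energy bound -/
theorem str_norm (hν : 0 < ν) (hT : 0 < T) (hE : FH T E E1) (R : Str W m ν T E v v1 y y1) {A V0 : ℝ}
    (hEA : ∀ t ∈ Icc 0 T, ‖E t‖ ≤ A) (hv0 : ‖v 0‖ ≤ V0) {t : ℝ} (ht : t ∈ Icc 0 T) :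
    ‖v t‖ ≤ Real.sqrt (V0 ^ 2 + A ^ 2 * T / ν) := by
  refine Real.le_sqrt_of_sq_le ?_
  have hA0 : 0 ≤ A := (norm_nonneg _).trans (hEA 0 ⟨le_rfl, hT.le⟩)
  have h1 := R.energy t ht
  have hyc := prim_cont R.z1m R.pz
  have hEc := prim_cont hE.memLp hE.prim
  have hsub : uIcc 0 t ⊆ Icc 0 T := by
    rw [uIcc_of_le ht.1]
    exact Icc_subset_Icc le_rfl ht.2
  have hi1 : IntervalIntegrable (fun s => ⟪E s, y s⟫_ℝ) volume 0 t :=
    ContinuousOn.intervalIntegrable ((hEc.mono hsub).inner (hyc.mono hsub))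
  have hi2 : IntervalIntegrable (fun s => ‖y s‖ ^ 2) volume 0 t :=
    ContinuousOn.intervalIntegrable ((hyc.mono hsub).norm.pow 2)
  have h2 : ∫ s in (0 : ℝ)..t, ⟪E s, y s⟫_ℝ ≤
      ∫ s in (0 : ℝ)..t, (A ^ 2 / (4 * ν) + ν * ‖y s‖ ^ 2) := by
    refine intervalIntegral.integral_mono_on ht.1 hi1
      (intervalIntegrable_const.add (hi2.const_mul ν)) fun s hs => ?_
    have h3 := real_inner_le_norm (E s) (y s)
    have h4 : ‖E s‖ * ‖y s‖ ≤ A * ‖y s‖ :=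
      mul_le_mul_of_nonneg_right (hEA s ⟨hs.1, hs.2.trans ht.2⟩) (norm_nonneg _)
    have h5 : A ^ 2 / (4 * ν) + ν * ‖y s‖ ^ 2 - A * ‖y s‖ =
        ν * (‖y s‖ - A / (2 * ν)) ^ 2 := by
      field_simp
      ring
    have h6 : 0 ≤ ν * (‖y s‖ - A / (2 * ν)) ^ 2 := by positivity
    linarith
  rw [intervalIntegral.integral_add intervalIntegrable_const (hi2.const_mul ν),
    intervalIntegral.integral_const, intervalIntegral.integral_const_mul, smul_eq_mul, sub_zero]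
    at h2
  have h7 : ‖v 0‖ ^ 2 ≤ V0 ^ 2 := pow_le_pow_left₀ (norm_nonneg _) hv0 2
  have h8 : t * (A ^ 2 / (4 * ν)) ≤ A ^ 2 * T / ν / 4 := by
    have : t * (A ^ 2 / (4 * ν)) = A ^ 2 * t / ν / 4 := by field_simp
    rw [this]
    have := ht.2
    gcongr
  have h9 : 0 ≤ A ^ 2 * T / ν := by positivity
  linarith

/-- bound of the time derivative of `v` -/
theorem speed (Fr : Frame W m C) (hν : 0 < ν) (hδ : 0 < δ) (hT : 0 < T)
    (hE : FH T E E1) (R : Str W m ν T E v v1 y y1) {Λ : ℝ → ℝ}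
    (hΛ0 : ∀ t, 0 ≤ Λ t) (hΛi : IntervalIntegrable Λ volume 0 T)
    (hform : ∀ᵐ s ∂(volume.restrict (Ioc 0 T)), ∀ p ∈ W,
      -⟪m p.1, y s⟫_ℝ ≤ (1 - δ) * ν * ‖p.2‖ ^ 2 + Λ s * ‖p.1‖ ^ 2) {A : ℝ} (hA : 0 ≤ A)
    (hE1 : ∫ s in (0 : ℝ)..T, ‖E1 s‖ ^ 2 ≤ A ^ 2)
    (h0 : ∃ t1 > 0, ∀ t ∈ Icc 0 t1, ‖v t - v 0‖ ≤ A * t) :
    ∀ᵐ s ∂(volume.restrict (Ioc 0 T)), ‖v1 s‖ ≤
      A * Real.sqrt (1 + 1 / (δ * ν)) * Real.exp (∫ r in (0 : ℝ)..T, Λ r) := by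
  obtain ⟨t1, ht1, h0⟩ := h0
  have hδν : 0 < δ * ν := by positivity
  set D : ℝ := A * Real.sqrt (1 + 1 / (δ * ν)) * Real.exp (∫ r in (0 : ℝ)..T, Λ r) with hD
  have hD0 : 0 ≤ D := by positivity
  have hne : ∀ᵐ s ∂(volume.restrict (Ioc 0 T)), s ≠ T := by
    refine ae_restrict_of_ae ?_
    simp [ae_iff, measure_singleton]
  filter_upwards [ae_deriv_of_prim hT (memLp_ii hT.le R.u1m) R.pu,
    ae_restrict_mem measurableSet_Ioc, hne] with s hd hs hsT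
  have hs' : s < T := lt_of_le_of_ne hs.2 hsT
  have hlim := hd.tendsto_slope_zero_right
  have hlim2 := hlim.norm
  refine le_of_tendsto hlim2 ?_
  have hmem : Ioo 0 (min t1 (T - s)) ∈ 𝓝[>] (0 : ℝ) :=
    Ioo_mem_nhdsGT (lt_min ht1 (by linarith))
  filter_upwards [hmem] with h hh
  have hh0 : 0 < h := hh.1
  have hh1 : h < t1 := hh.2.trans_le (min_le_left _ _)
  have hh2 : h < T - s := hh.2.trans_le (min_le_right _ _)
  have hhT : h < T := by linarith [hs.1]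
  have key := shift_bound Fr hν hδ hE R hΛ0 hΛi hform hh0 hhT (t := s)
    ⟨hs.1.le, by linarith⟩
  have k1 : ‖v h - v 0‖ ^ 2 ≤ (A * h) ^ 2 :=
    pow_le_pow_left₀ (norm_nonneg _) (h0 h ⟨hh0.le, hh1.le⟩) 2
  have hΛs : ∫ r in (0 : ℝ)..s, 2 * Λ r ≤ 2 * ∫ r in (0 : ℝ)..T, Λ r := by
    rw [intervalIntegral.integral_const_mul]
    have i1 : IntervalIntegrable Λ volume 0 s := hΛi.mono_set (by
      rw [uIcc_of_le hs.1.le, uIcc_of_le hT.le]; exact Icc_subset_Icc le_rfl hs.2)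
    have i2 : IntervalIntegrable Λ volume s T := hΛi.mono_set (by
      rw [uIcc_of_le hs.2, uIcc_of_le hT.le]; exact Icc_subset_Icc hs.1.le le_rfl)
    have := intervalIntegral.integral_add_adjacent_intervals i1 i2
    have n1 : 0 ≤ ∫ r in s..T, Λ r := intervalIntegral.integral_nonneg hs.2 fun r _ => hΛ0 r
    linarith
  have hX : Real.exp (∫ r in (0 : ℝ)..s, 2 * Λ r) ≤
      Real.exp (∫ r in (0 : ℝ)..T, Λ r) ^ 2 := by
    rw [← Real.exp_nat_mul]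
    exact Real.exp_le_exp.2 (by push_cast; exact hΛs)
  have hsq : ‖v (s + h) - v s‖ ^ 2 ≤ (D * h) ^ 2 := by
    refine key.trans ?_
    have e1 : (D * h) ^ 2 = ((A * h) ^ 2 + 1 / (δ * ν) * (A ^ 2 * h ^ 2)) *
        Real.exp (∫ r in (0 : ℝ)..T, Λ r) ^ 2 := by
      rw [hD]
      have : Real.sqrt (1 + 1 / (δ * ν)) ^ 2 = 1 + 1 / (δ * ν) := Real.sq_sqrt (by positivity)
      calc _ = A ^ 2 * (Real.sqrt (1 + 1 / (δ * ν)) ^ 2) *
            Real.exp (∫ r in (0 : ℝ)..T, Λ r) ^ 2 * h ^ 2 := by ring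
        _ = _ := by rw [this]; ring
    rw [e1]
    gcongr
  have hle : ‖v (s + h) - v s‖ ≤ D * h :=
    le_of_sq_le_sq₀' hsq (by positivity)
  rw [norm_smul, norm_inv, Real.norm_eq_abs, abs_of_pos hh0, inv_mul_le_iff₀ hh0]
  linarith
where
  le_of_sq_le_sq₀' {a b : ℝ} (h : a ^ 2 ≤ b ^ 2) (hb : 0 ≤ b) : a ≤ b :=
    le_of_sq_le_sq h hb
  le_of_sq_le_sq {a b : ℝ} (h : a ^ 2 ≤ b ^ 2) (hb : 0 ≤ b) : a ≤ b := by
    by_contra hc
    rw [not_le] at hc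
    nlinarith

/-- bound of the gradient of `v` -/
theorem grad_v (Fr : Frame W m C) (hν : 0 < ν) (hT : 0 < T) (hE : FH T E E1)
    (R : Str W m ν T E v v1 y y1) {A V D : ℝ} (hV : 0 ≤ V)
    (hEA : ∀ t ∈ Icc 0 T, ‖E t‖ ≤ A) (hvV : ∀ t ∈ Icc 0 T, ‖v t‖ ≤ V)
    (hD : ∀ᵐ s ∂(volume.restrict (Ioc 0 T)), ‖v1 s‖ ≤ D) :
    ∀ᵐ s ∂(volume.restrict (Ioc 0 T)), ‖y s‖ ^ 2 ≤ A ^ 2 / ν ^ 2 + 2 * D * V / ν := by
  filter_upwards [hD, aeweak Fr hT hE R, ae_restrict_mem measurableSet_Ioc] with s k1 k2 hs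
  have hsI := Ioc_subset_Icc_self hs
  have ms := R.mem s hsI
  have e1 := k2 _ ms
  have e2 := Fr.ortho _ ms
  simp only at e1 e2
  rw [inner_add_left, inner_sub_left, real_inner_smul_left, real_inner_self_eq_norm_sq, e2,
    add_zero] at e1
  have h1 : ‖E s‖ * ‖y s‖ ≤ A * ‖y s‖ :=
    mul_le_mul_of_nonneg_right (hEA s hsI) (norm_nonneg _)
  have h2 := real_inner_le_norm (E s) (y s)
  have h3 : -(D * V) ≤ ⟪v1 s, v s⟫_ℝ := by
    have h4 := abs_real_inner_le_norm (v1 s) (v s)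
    have h5 : ‖v1 s‖ * ‖v s‖ ≤ D * V :=
      mul_le_mul k1 (hvV s hsI) (norm_nonneg _) ((norm_nonneg _).trans k1)
    have := neg_abs_le (⟪v1 s, v s⟫_ℝ)
    linarith
  have h6 : ν * ‖y s‖ ^ 2 ≤ A * ‖y s‖ + D * V := by linarith
  have h7 : A * ‖y s‖ ≤ A ^ 2 / (2 * ν) + ν / 2 * ‖y s‖ ^ 2 := by
    have : A ^ 2 / (2 * ν) + ν / 2 * ‖y s‖ ^ 2 - A * ‖y s‖ = ν / 2 * (‖y s‖ - A / ν) ^ 2 := by
      field_simp
      ring
    have h8 : 0 ≤ ν / 2 * (‖y s‖ - A / ν) ^ 2 := by positivity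
    linarith
  have h9 : ν / 2 * ‖y s‖ ^ 2 ≤ A ^ 2 / (2 * ν) + D * V := by linarith
  have h10 : ‖y s‖ ^ 2 = 2 / ν * (ν / 2 * ‖y s‖ ^ 2) := by field_simp
  rw [h10]
  calc 2 / ν * (ν / 2 * ‖y s‖ ^ 2) ≤ 2 / ν * (A ^ 2 / (2 * ν) + D * V) :=
        mul_le_mul_of_nonneg_left h9 (by positivity)
    _ = A ^ 2 / ν ^ 2 + 2 * D * V / ν := by field_simp

end

/-- the data of the comparison field -/
structure Cmp {H K : Type} [NormedAddCommGroup H] [InnerProductSpace ℝ H]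
    [NormedAddCommGroup K] [InnerProductSpace ℝ K] (W : Submodule ℝ (H × K)) (m : H → K)
    (ν T A δ η : ℝ) (F : ℝ → K) (x0 : H) (E E1 : ℝ → K) (v v1 : ℝ → H) (y y1 : ℝ → K)
    (Λ : ℝ → ℝ) : Prop where
  force : FH T E E1
  str : Str W m ν T E v v1 y y1
  bE : ∀ t ∈ Icc 0 T, ‖E t‖ ≤ A
  bE1 : ∫ s in (0 : ℝ)..T, ‖E1 s‖ ^ 2 ≤ A ^ 2
  init : ‖x0 - v 0‖ ≤ η
  res : ∫ s in (0 : ℝ)..T, ‖F s - E s‖ ^ 2 ≤ η ^ 2
  slow : ∃ t1 > 0, ∀ t ∈ Icc 0 t1, ‖v t - v 0‖ ≤ A * t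
  nonneg : ∀ t, 0 ≤ Λ t
  int : IntervalIntegrable Λ volume 0 T
  form : ∀ᵐ s ∂(volume.restrict (Ioc 0 T)), ∀ p ∈ W,
    -⟪m p.1, y s⟫_ℝ ≤ (1 - δ) * ν * ‖p.2‖ ^ 2 + Λ s * ‖p.1‖ ^ 2

/-- the growth before a first singular time -/
theorem growth (hode : S_ode) (he1 : S_est1) (he2 : S_est2) : ∀ c : ℝ, 0 < c →
    ∀ ν T A δ : ℝ, 0 < ν → 0 < T → 0 < A → 0 < δ → ∃ c2 : ℝ, 0 < c2 ∧
    ∀ (H K : Type) [NormedAddCommGroup H] [InnerProductSpace ℝ H] [CompleteSpace H]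
      [NormedAddCommGroup K] [InnerProductSpace ℝ K] [CompleteSpace K]
      (W : Submodule ℝ (H × K)) (m : H → K) (C τ κ : ℝ) (F F1 : ℝ → K) (x0 : H) (z0 : K)
      (U : ℝ → H) (η : ℝ) (E E1 : ℝ → K) (v v1 : ℝ → H) (y y1 : ℝ → K) (Λ : ℝ → ℝ),
      Frame W m C → Univ W m c → 0 < τ → τ ≤ T → 0 < κ → FH T F F1 →
      (∀ t ∈ Icc 0 T, ‖F t‖ ≤ A) → ∫ s in (0 : ℝ)..T, ‖F1 s‖ ^ 2 ≤ A ^ 2 →
      U 0 = x0 → (x0, z0) ∈ W → ‖x0‖ ≤ A → ‖z0‖ ≤ A →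
      (∀ t ∈ Ioo 0 τ, ∃ (u u1 : ℝ → H) (z z1 : ℝ → K), Str W m ν t F u u1 z z1 ∧
        ∀ s ∈ Icc 0 t, U s = u s) →
      (∀ (Z : H) (h0 : ℝ), 0 < h0 → h0 ≤ τ → ∃ h : ℝ, 0 < h ∧ h ≤ h0 ∧
        κ * h ^ (3 / 2 : ℝ) < ∫ t in (τ - h)..τ, ‖U t - Z‖ ^ 2) →
      0 < η → η ≤ 1 → Cmp W m ν T A δ η F x0 E E1 v v1 y y1 Λ →
      c2 ≤ η ^ 2 * Real.exp (∫ s in (0 : ℝ)..T, Λ s) ^ 3 := by
  intro c hc ν T A δ hν hT hA hδ
  obtain ⟨ε, hε, hL⟩ := leray_tau hode he1 he2 c hc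
  have hδν : 0 < δ * ν := by positivity
  set k0 : ℝ := 1 + 1 / (δ * ν) with hk0
  have hk0p : 0 < k0 := by positivity
  set V : ℝ := Real.sqrt ((A + 1) ^ 2 + A ^ 2 * T / ν) with hV
  have hVp : 0 < V := Real.sqrt_pos.2 (by positivity)
  set e1 : ℝ := ε * ν ^ (3 / 2 : ℝ) with he1d
  have he1p : 0 < e1 := by have := Real.rpow_pos_of_pos hν (3 / 2 : ℝ); positivity
  set L : ℝ := (A ^ 2 + T * A ^ 2) / ν ^ 2 with hLd
  have hLp : 0 < L := by positivity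
  set P : ℝ := L / 2 + A ^ 2 / ν ^ 2 + 2 * A * Real.sqrt k0 * V / ν with hP
  have hPp : 0 < P := by positivity
  set s0 : ℝ := min (e1 / (4 * P)) (e1 / (A ^ 2 + L)) with hs0
  have hs0p : 0 < s0 := lt_min (by positivity) (by positivity)
  have hs1 : s0 * P ≤ e1 / 4 := by
    have : s0 ≤ e1 / (4 * P) := min_le_left _ _
    calc s0 * P ≤ e1 / (4 * P) * P := mul_le_mul_of_nonneg_right this hPp.le
      _ = e1 / 4 := by field_simp
  have hs2 : s0 * (A ^ 2 + L) ≤ e1 := by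
    have : s0 ≤ e1 / (A ^ 2 + L) := min_le_right _ _
    calc s0 * (A ^ 2 + L) ≤ e1 / (A ^ 2 + L) * (A ^ 2 + L) :=
          mul_le_mul_of_nonneg_right this (by positivity)
      _ = e1 := by field_simp
  refine ⟨δ * ν * e1 * s0 / (8 * k0), by positivity, ?_⟩
  intro H K _ _ _ _ _ _ W m C τ κ F F1 x0 z0 U η E E1 v v1 y y1 Λ Fr Un hτ hτT hκ hF hFA hF1A hU0
    hx0 hx0A hz0A hex hH hη hη1 Cm
  set Λb : ℝ := ∫ s in (0 : ℝ)..T, Λ s with hΛb
  have hΛb0 : 0 ≤ Λb := intervalIntegral.integral_nonneg hT.le fun s _ => Cm.nonneg s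
  set X : ℝ := Real.exp Λb with hX
  have hX1 : 1 ≤ X := Real.one_le_exp hΛb0
  have hX0 : 0 < X := by linarith
  have hFτ : FH τ F F1 := ⟨hF.memLp.mono_measure (Measure.restrict_mono
    (Ioc_subset_Ioc_right hτT) le_rfl), fun x y hx hxy hy => hF.prim x y hx hxy (hy.trans hτT)⟩
  have hF1i : IntegrableOn (fun s => ‖F1 s‖ ^ 2) (Ioc 0 T) :=
    (memLp_two_iff_integrable_sq_norm hF.memLp.aestronglyMeasurable).mp hF.memLp
  have hGτ : ∫ s in (0 : ℝ)..τ, ‖F1 s‖ ^ 2 ≤ A ^ 2 := by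
    refine le_trans ?_ hF1A
    rw [intervalIntegral.integral_of_le hτ.le, intervalIntegral.integral_of_le hT.le]
    exact setIntegral_mono_set hF1i (Eventually.of_forall fun s => by positivity)
      (Ioc_subset_Ioc_right hτT).eventuallyLE
  have hLer := hL H K W m C ν τ κ F F1 U A (A ^ 2) Fr Un hν hτ hκ hFτ hA.le
    (fun t ht => hFA t ⟨ht.1, ht.2.trans hτT⟩) (by positivity) hGτ hex hH
  have hLer' : ∀ t0 ∈ Ico 0 τ, ∀ ζ : K, (U t0, ζ) ∈ W →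
      e1 < (‖ζ‖ ^ 2 + L) * Real.sqrt (τ - t0) := by
    intro t0 ht0 ζ hζ
    refine (hLer t0 ht0 ζ hζ).trans_le ?_
    refine mul_le_mul_of_nonneg_right ?_ (Real.sqrt_nonneg _)
    have : (A ^ 2 + (τ - t0) * A ^ 2) / ν ^ 2 ≤ L := by
      rw [hLd]
      have : τ - t0 ≤ T := by linarith [ht0.1]
      gcongr
    linarith
  -- the window
  set h : ℝ := (s0 / X) ^ 2 with hh
  have hhp : 0 < h := by positivity
  have hsh : Real.sqrt h = s0 / X := Real.sqrt_sq (by positivity)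
  have hshs : Real.sqrt h ≤ s0 := by
    rw [hsh]
    exact div_le_self hs0p.le hX1
  have hhτ : h ≤ τ := by
    have h1 := hLer' 0 ⟨le_rfl, hτ⟩ z0 (by rw [hU0]; exact hx0)
    rw [sub_zero] at h1
    have h2 : (‖z0‖ ^ 2 + L) ≤ A ^ 2 + L := by
      have := pow_le_pow_left₀ (norm_nonneg _) hz0A 2
      linarith
    have h3 : e1 < (A ^ 2 + L) * Real.sqrt τ :=
      h1.trans_le (mul_le_mul_of_nonneg_right h2 (Real.sqrt_nonneg _))
    have h4 : s0 < Real.sqrt τ := by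
      by_contra hc
      rw [not_lt] at hc
      have : (A ^ 2 + L) * Real.sqrt τ ≤ (A ^ 2 + L) * s0 :=
        mul_le_mul_of_nonneg_left hc (by positivity)
      linarith
    have h5 : Real.sqrt h ≤ Real.sqrt τ := hshs.trans h4.le
    exact (Real.sqrt_le_sqrt_iff hτ.le).1 h5
  set ts : ℝ := τ - h / 2 with hts
  have hts0 : 0 < ts := by linarith
  have htsτ : ts < τ := by linarith
  obtain ⟨u, u1, z, z1, S, hUu⟩ := hex ts ⟨hts0, htsτ⟩
  have htsT : ts ≤ T := htsτ.le.trans hτT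
  have hFs : FH ts F F1 := ⟨hF.memLp.mono_measure (Measure.restrict_mono
    (Ioc_subset_Ioc_right htsT) le_rfl), fun x y hx hxy hy => hF.prim x y hx hxy (hy.trans htsT)⟩
  have hEs : FH ts E E1 := ⟨Cm.force.memLp.mono_measure (Measure.restrict_mono
    (Ioc_subset_Ioc_right htsT) le_rfl), fun x y hx hxy hy =>
      Cm.force.prim x y hx hxy (hy.trans htsT)⟩
  have Rs : Str W m ν ts E v v1 y y1 := Cm.str.mono htsT
  have hmr : (volume.restrict (Ioc 0 ts) : Measure ℝ) ≤ volume.restrict (Ioc 0 T) :=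
    Measure.restrict_mono (Ioc_subset_Ioc_right htsT) le_rfl
  have hΛs : IntervalIntegrable Λ volume 0 ts := Cm.int.mono_set (by
    rw [uIcc_of_le hts0.le, uIcc_of_le hT.le]; exact Icc_subset_Icc le_rfl htsT)
  -- dissipation of the difference
  have hdis := diff_bound Fr hν hδ hts0 hFs hEs S Rs Cm.nonneg hΛs (ae_mono hmr Cm.form)
    (t := ts) ⟨hts0.le, le_rfl⟩
  have hu0 : u 0 = x0 := by rw [← hUu 0 ⟨le_rfl, hts0.le⟩, hU0]
  have hdis2 : δ * ν * ∫ s in (0 : ℝ)..ts, ‖z s - y s‖ ^ 2 ≤ η ^ 2 * k0 * X ^ 2 := by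
    have h1 : ‖u 0 - v 0‖ ^ 2 ≤ η ^ 2 := by
      rw [hu0]
      exact pow_le_pow_left₀ (norm_nonneg _) Cm.init 2
    have hFEi : Integrable (fun s => ‖F s - E s‖ ^ 2) (volume.restrict (Ioc 0 T)) := by
      have hFi : Integrable F1 (volume.restrict (Ioc 0 T)) := hF.memLp.integrable (by norm_num)
      have hEi : Integrable E1 (volume.restrict (Ioc 0 T)) :=
        Cm.force.memLp.integrable (by norm_num)
      refine sqn_int (g := fun s => F s - E s) (g1 := fun s => F1 s - E1 s)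
        (hF.memLp.sub Cm.force.memLp) ?_
      intro a b ha hab hb
      rw [intervalIntegral.integral_sub (ii_of_int hFi ha hab hb) (ii_of_int hEi ha hab hb),
        ← hF.prim a b ha hab hb, ← Cm.force.prim a b ha hab hb]
      abel
    have h2 : ∫ s in (0 : ℝ)..ts, ‖F s - E s‖ ^ 2 ≤ η ^ 2 := by
      refine le_trans ?_ Cm.res
      have i1 := intervalIntegral.integral_add_adjacent_intervals
        (ii_of_int hFEi le_rfl hts0.le htsT) (ii_of_int hFEi hts0.le htsT le_rfl)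
      have n1 : 0 ≤ ∫ s in ts..T, ‖F s - E s‖ ^ 2 :=
        intervalIntegral.integral_nonneg htsT fun s _ => by positivity
      linarith
    have h3 : ∫ s in (0 : ℝ)..ts, 2 * Λ s ≤ 2 * Λb := by
      rw [intervalIntegral.integral_const_mul]
      have i1 := intervalIntegral.integral_add_adjacent_intervals hΛs (Cm.int.mono_set (by
        rw [uIcc_of_le htsT, uIcc_of_le hT.le]; exact Icc_subset_Icc hts0.le le_rfl) :
          IntervalIntegrable Λ volume ts T)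
      have n1 : 0 ≤ ∫ s in ts..T, Λ s := intervalIntegral.integral_nonneg htsT fun s _ =>
        Cm.nonneg s
      rw [hΛb]
      linarith
    have h4 : Real.exp (∫ s in (0 : ℝ)..ts, 2 * Λ s) ≤ X ^ 2 := by
      rw [hX, ← Real.exp_nat_mul]
      exact Real.exp_le_exp.2 (by push_cast; exact h3)
    have h5 : 0 ≤ ‖u ts - v ts‖ ^ 2 := by positivity
    have h6 : ‖u 0 - v 0‖ ^ 2 + 1 / (δ * ν) * ∫ s in (0 : ℝ)..ts, ‖F s - E s‖ ^ 2 ≤
        η ^ 2 * k0 := by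
      have : 1 / (δ * ν) * ∫ s in (0 : ℝ)..ts, ‖F s - E s‖ ^ 2 ≤ 1 / (δ * ν) * η ^ 2 :=
        mul_le_mul_of_nonneg_left h2 (by positivity)
      rw [hk0]
      nlinarith
    have h7 : (‖u 0 - v 0‖ ^ 2 + 1 / (δ * ν) * ∫ s in (0 : ℝ)..ts, ‖F s - E s‖ ^ 2) *
        Real.exp (∫ s in (0 : ℝ)..ts, 2 * Λ s) ≤ η ^ 2 * k0 * X ^ 2 :=
      mul_le_mul h6 h4 (Real.exp_pos _).le (by positivity)
    linarith
  -- the gradient of `v`
  have hv0 : ‖v 0‖ ≤ A + 1 := by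
    have : ‖v 0‖ ≤ ‖x0‖ + ‖x0 - v 0‖ := by
      have := norm_sub_le x0 (x0 - v 0)
      simpa using this
    linarith [Cm.init]
  have hvV : ∀ t ∈ Icc 0 T, ‖v t‖ ≤ V := fun t ht =>
    str_norm hν hT Cm.force Cm.str Cm.bE hv0 ht
  have hsp := speed Fr hν hδ hT Cm.force Cm.str Cm.nonneg Cm.int Cm.form hA.le Cm.bE1 Cm.slow
  rw [← hk0, ← hΛb, ← hX] at hsp
  have hgv := grad_v Fr hν hT Cm.force Cm.str hVp.le Cm.bE hvV hsp
  -- lower bound for the difference of the gradients in the window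
  set B : ℝ := 1 / 2 * (e1 / Real.sqrt h - L) -
    (A ^ 2 / ν ^ 2 + 2 * (A * Real.sqrt k0 * X) * V / ν) with hB
  have hshp : 0 < Real.sqrt h := Real.sqrt_pos.2 hhp
  have hlow : ∀ᵐ s ∂(volume.restrict (Ioc (τ - h) ts)), B ≤ ‖z s - y s‖ ^ 2 := by
    have hsubm : (volume.restrict (Ioc (τ - h) ts) : Measure ℝ) ≤ volume.restrict (Ioc 0 T) :=
      Measure.restrict_mono (Ioc_subset_Ioc (by linarith) htsT) le_rfl
    filter_upwards [ae_mono hsubm hgv, ae_restrict_mem measurableSet_Ioc] with s k1 hs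
    have hs0' : 0 ≤ s := by linarith [hs.1]
    have hsτ : s < τ := hs.2.trans_lt htsτ
    have ms := S.mem s ⟨hs0', hs.2⟩
    have h1 := hLer' s ⟨hs0', hsτ⟩ (z s) (by rw [hUu s ⟨hs0', hs.2⟩]; exact ms)
    have h2 : Real.sqrt (τ - s) ≤ Real.sqrt h := Real.sqrt_le_sqrt (by linarith [hs.1])
    have h3 : e1 < (‖z s‖ ^ 2 + L) * Real.sqrt h :=
      h1.trans_le (mul_le_mul_of_nonneg_left h2 (by positivity))
    have h4 : e1 / Real.sqrt h - L < ‖z s‖ ^ 2 := by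
      rw [sub_lt_iff_lt_add, div_lt_iff₀ hshp]
      exact h3
    have h5 : ‖z s‖ ^ 2 ≤ 2 * ‖y s‖ ^ 2 + 2 * ‖z s - y s‖ ^ 2 := by
      have h6 : ‖z s‖ ≤ ‖y s‖ + ‖z s - y s‖ := by
        have := norm_add_le (y s) (z s - y s)
        simpa using this
      have h7 : ‖z s‖ ^ 2 ≤ (‖y s‖ + ‖z s - y s‖) ^ 2 := pow_le_pow_left₀ (norm_nonneg _) h6 2
      nlinarith [sq_nonneg (‖y s‖ - ‖z s - y s‖)]
    rw [hB]
    linarith
  have hzyi : Integrable (fun s => ‖z s - y s‖ ^ 2) (volume.restrict (Ioc 0 ts)) := by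
    have hz1 : Integrable z1 (volume.restrict (Ioc 0 ts)) := S.z1m.integrable (by norm_num)
    have hy1 : Integrable y1 (volume.restrict (Ioc 0 ts)) := Rs.z1m.integrable (by norm_num)
    refine sqn_int (g := fun s => z s - y s) (g1 := fun s => z1 s - y1 s) (S.z1m.sub Rs.z1m) ?_
    intro a b ha hab hb
    rw [intervalIntegral.integral_sub (ii_of_int hz1 ha hab hb) (ii_of_int hy1 ha hab hb),
      ← S.pz a b ha hab hb, ← Rs.pz a b ha hab hb]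
    abel
  have hτh : 0 ≤ τ - h := by linarith
  have hint : B * (h / 2) ≤ ∫ s in (0 : ℝ)..ts, ‖z s - y s‖ ^ 2 := by
    have i1 := intervalIntegral.integral_add_adjacent_intervals
      (ii_of_int hzyi le_rfl hτh (by linarith)) (ii_of_int hzyi hτh (by linarith : τ - h ≤ ts) le_rfl)
    have n1 : 0 ≤ ∫ s in (0 : ℝ)..(τ - h), ‖z s - y s‖ ^ 2 :=
      intervalIntegral.integral_nonneg hτh fun s _ => by positivity
    have n2 : ∫ s in (τ - h)..ts, B ≤ ∫ s in (τ - h)..ts, ‖z s - y s‖ ^ 2 := by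
      refine intervalIntegral.integral_mono_ae_restrict (by linarith) intervalIntegrable_const
        (ii_of_int hzyi hτh (by linarith : τ - h ≤ ts) le_rfl) ?_
      rw [Filter.EventuallyLE, ← restrict_Ioc_eq_restrict_Icc]
      exact hlow
    rw [intervalIntegral.integral_const, smul_eq_mul] at n2
    have e2 : ts - (τ - h) = h / 2 := by rw [hts]; ring
    rw [e2] at n2
    linarith
  -- conclusion
  have hBs : e1 / 4 ≤ B * Real.sqrt h := by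
    have e2 : B * Real.sqrt h = e1 / 2 - Real.sqrt h * (L / 2) - Real.sqrt h * (A ^ 2 / ν ^ 2) -
        2 * (A * Real.sqrt k0 * (Real.sqrt h * X)) * V / ν := by
      rw [hB]
      field_simp
      ring
    have e3 : Real.sqrt h * X = s0 := by rw [hsh]; field_simp
    rw [e2, e3]
    have e4 : Real.sqrt h * (L / 2) ≤ s0 * (L / 2) :=
      mul_le_mul_of_nonneg_right hshs (by positivity)
    have e5 : Real.sqrt h * (A ^ 2 / ν ^ 2) ≤ s0 * (A ^ 2 / ν ^ 2) :=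
      mul_le_mul_of_nonneg_right hshs (by positivity)
    have e6 : s0 * P = s0 * (L / 2) + s0 * (A ^ 2 / ν ^ 2) +
        2 * (A * Real.sqrt k0 * s0) * V / ν := by
      rw [hP]; ring
    linarith
  have hfin : δ * ν * (e1 / 4 * (Real.sqrt h / 2)) ≤ η ^ 2 * k0 * X ^ 2 := by
    refine le_trans ?_ hdis2
    refine mul_le_mul_of_nonneg_left ?_ hδν.le
    refine le_trans ?_ hint
    have e2 : B * (h / 2) = B * Real.sqrt h * (Real.sqrt h / 2) := by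
      have : Real.sqrt h * Real.sqrt h = h := Real.mul_self_sqrt hhp.le
      calc B * (h / 2) = B * (Real.sqrt h * Real.sqrt h / 2) := by rw [this]
        _ = _ := by ring
    rw [e2]
    exact mul_le_mul_of_nonneg_right hBs (by positivity)
  rw [hsh] at hfin
  have e7 : δ * ν * (e1 / 4 * (s0 / X / 2)) = (δ * ν * e1 * s0 / 8) / X := by field_simp; ring
  rw [e7, div_le_iff₀ hX0] at hfin
  rw [div_le_iff₀ (by positivity)]
  calc δ * ν * e1 * s0 = 8 * (δ * ν * e1 * s0 / 8) := by ring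
    _ ≤ 8 * (η ^ 2 * k0 * X ^ 2 * X) := by linarith
    _ = η ^ 2 * X ^ 3 * (8 * k0) := by ring

/-- **The criterion.** -/
theorem abs_crit (hit : S_iter) (hode : S_ode) (htp : S_dtp) (he1 : S_est1) (he2 : S_est2)
    (hloc : S_loc) (huni : S_uni) : ∀ c : ℝ, 0 < c →
    ∀ ν T A δ : ℝ, 0 < ν → 0 < T → 0 < A → 0 < δ → ∃ M : ℝ,
    ∀ (H K : Type) [NormedAddCommGroup H] [InnerProductSpace ℝ H] [CompleteSpace H]
      [NormedAddCommGroup K] [InnerProductSpace ℝ K] [CompleteSpace K]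
      (W : Submodule ℝ (H × K)) (m : H → K) (C : ℝ) (F F1 : ℝ → K) (x0 g0 : H) (z0 : K)
      (U : ℝ → H) (Y : ℝ → K) (η : ℝ) (E E1 : ℝ → K) (v v1 : ℝ → H) (y y1 : ℝ → K) (Λ : ℝ → ℝ),
      Frame W m C → Univ W m c →
      (∀ R : ℝ, TotallyBounded {v : H | ∃ z, (v, z) ∈ W ∧ ‖z‖ ≤ R}) → FH T F F1 →
      (x0, z0) ∈ W → (∀ p ∈ W, ⟪F 0 - ν • z0 + m x0, p.2⟫_ℝ = ⟪g0, p.1⟫_ℝ) →
      H772R2.NSG.LH W m T (fun _ => ν) F x0 U Y → ‖x0‖ ≤ A → ‖z0‖ ≤ A →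
      (∀ t ∈ Icc 0 T, ‖F t‖ ≤ A) → ∫ s in (0 : ℝ)..T, ‖F1 s‖ ^ 2 ≤ A ^ 2 →
      0 < η → η ≤ 1 → Cmp W m ν T A δ η F x0 E E1 v v1 y y1 Λ →
      ∫ s in (0 : ℝ)..T, Λ s < 2 / 3 * Real.log (1 / η) - M →
      ∃ (u u1 : ℝ → H) (z z1 : ℝ → K), Str W m ν T F u u1 z z1 ∧ ∀ t ∈ Icc 0 T, U t = u t := by
  intro c hc ν T A δ hν hT hA hδ
  obtain ⟨k, hk, hcr⟩ := dcrit hit hode htp he1 he2 hloc huni c hc
  obtain ⟨c2, hc2, hgr⟩ := growth hode he1 he2 c hc ν T A δ hν hT hA hδ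
  refine ⟨-(1 / 3) * Real.log c2, ?_⟩
  intro H K _ _ _ _ _ _ W m C F F1 x0 g0 z0 U Y η E E1 v v1 y y1 Λ Fr Un hcomp hF hx0 hg L hx0A
    hz0A hFA hF1A hη hη1 Cm hlt
  rcases hcr H K W m C ν T F F1 x0 g0 z0 U Y Fr Un hcomp hν hT hF hx0 hg L with h1 | ⟨τ, hτ, h1, h2⟩
  · exact h1
  exfalso
  have key := hgr H K W m C τ (k * ν ^ (5 / 2 : ℝ)) F F1 x0 z0 U η E E1 v v1 y y1 Λ Fr Un hτ.1 hτ.2
    (by have := Real.rpow_pos_of_pos hν (5 / 2 : ℝ); positivity) hF hFA hF1A L.init hx0 hx0A hz0A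
    h1 h2 hη hη1 Cm
  have h3 := Real.log_le_log hc2 key
  rw [Real.log_mul (by positivity) (by positivity), Real.log_pow, Real.log_pow, Real.log_exp] at h3
  rw [one_div, Real.log_inv] at hlt
  push_cast at h3
  linarith

end Pool.Agent.U571.AP
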