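import Pool.Agent.U571.AP.Core

/-!
# Lower bound of the gradient before a first singular time
-/

set_option autoImplicit false
set_option linter.all false

open MeasureTheory Set Filter Topology
open scoped InnerProductSpace

namespace Pool.Agent.U571.AP

open Pool.Agent.W795.TQ
open H772R2.NSR (Frame prim_cont memLp_ii ae_deriv_of_prim grad_unique)
open H772R2.NSG (St ii_of_int int_inner norm_m_le)
open Pool.Agent.W790.TQ (toSt sq_prim prim_shift')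

theorem leray (hode : S_ode) (he1 : S_est1) (he2 : S_est2) : ∀ c : ℝ, 0 < c →
    ∃ ε C7 : ℝ, 0 < ε ∧ 0 < C7 ∧
    ∀ (H K : Type) [NormedAddCommGroup H] [InnerProductSpace ℝ H] [CompleteSpace H]
      [NormedAddCommGroup K] [InnerProductSpace ℝ K] [CompleteSpace K]
      (W : Submodule ℝ (H × K)) (m : H → K) (C ν T : ℝ) (F F1 : ℝ → K)
      (u u1 : ℝ → H) (z z1 : ℝ → K) (Φ G : ℝ), Frame W m C → Univ W m c → 0 < ν → 0 < T →
      FH T F F1 → Str W m ν T F u u1 z z1 → 0 ≤ Φ → (∀ t ∈ Icc 0 T, ‖F t‖ ≤ Φ) → 0 ≤ G →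
      ∫ s in (0 : ℝ)..T, ‖F1 s‖ ^ 2 ≤ G → ∀ t0 ∈ Ico 0 T,
      (‖z t0‖ ^ 2 + (Φ ^ 2 + (T - t0) * G) / ν ^ 2) * Real.sqrt (T - t0) ≤ ε * ν ^ (3 / 2 : ℝ) →
      ∀ t ∈ Icc t0 T, ‖z t‖ ^ 2 ≤ C7 * (‖z t0‖ ^ 2 + (Φ ^ 2 + (T - t0) * G) / ν ^ 2) := by
  intro c hc
  obtain ⟨ε, C7, hε, hC7, hOd⟩ := hode c hc
  refine ⟨ε, C7, hε, hC7, ?_⟩
  intro H K _ _ _ _ _ _ W m C ν T F F1 u u1 z z1 Φ G Fr Un hν hT hF S hΦ0 hΦ hG0 hG t0 ht0 hsm t ht
  have hsubm : (volume.restrict (Ioc t0 T) : Measure ℝ) ≤ volume.restrict (Ioc 0 T) :=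
    Measure.restrict_mono (Ioc_subset_Ioc_left ht0.1) le_rfl
  have hF1i : IntegrableOn (fun s => ‖F1 s‖ ^ 2) (Ioc 0 T) :=
    (memLp_two_iff_integrable_sq_norm hF.memLp.aestronglyMeasurable).mp hF.memLp
  have hGle' : ∫ s in t0..T, ‖F1 s‖ ^ 2 ≤ G := by
    refine le_trans ?_ hG
    rw [intervalIntegral.integral_of_le ht0.2.le, intervalIntegral.integral_of_le hT.le]
    exact setIntegral_mono_set hF1i (Eventually.of_forall fun s => by positivity)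
      (Ioc_subset_Ioc ht0.1 le_rfl).eventuallyLE
  have est1 := he1 H K W m C c ν T F F1 u u1 z z1 Φ Fr Un hν hT hF S hΦ0 hΦ t0 ⟨ht0.1, ht0.2.le⟩
  have est2 := he2 H K W m C c ν T F F1 u u1 z z1 Fr Un hν hT hF S t0 ht0
  obtain ⟨A0, hA0⟩ := S.bd
  have hzc : ContinuousOn z (Icc 0 T) := prim_cont S.z1m S.pz
  exact hOd ν t0 T Φ G A0 (fun s => ‖u1 s‖) (fun s => ‖z1 s‖) (fun s => ‖F1 s‖)
    (fun s => ‖z s‖) hν ht0.2 hΦ0 hG0 (fun t => norm_nonneg _) (fun t => norm_nonneg _)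
    (fun t => norm_nonneg _) (fun t => norm_nonneg _) ((S.u1m.mono_measure hsubm).norm)
    ((S.z1m.mono_measure hsubm).norm) (hF.memLp.mono_measure hsubm).norm (ae_mono hsubm hA0)
    (hzc.norm.mono (Icc_subset_Icc_left ht0.1)) hGle'
    (fun t ht => est1 t ht) (by
      filter_upwards [est2] with t ht
      refine ht.trans ?_
      have h3 : 2 / ν * ((T - t0) * ∫ s in t0..T, ‖F1 s‖ ^ 2) ≤ 2 / ν * ((T - t0) * G) := by
        have : 0 ≤ T - t0 := by linarith [ht0.2]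
        gcongr
      linarith) hsm t ht

section

variable {H K : Type} [NormedAddCommGroup H] [InnerProductSpace ℝ H] [CompleteSpace H]
  [NormedAddCommGroup K] [InnerProductSpace ℝ K] [CompleteSpace K]
  {W : Submodule ℝ (H × K)} {m : H → K} {C ν T δ : ℝ}
  {F F1 : ℝ → K} {u u1 : ℝ → H} {z z1 : ℝ → K}

/-- bounded gradient implies the Hölder exponent `1/2` in time -/
theorem hoelder_half (Fr : Frame W m C) (hν : 0 < ν) (hT : 0 < T) (hF : FH T F F1)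
    (S : Str W m ν T F u u1 z z1) {Φ R : ℝ} (hΦ : ∀ t ∈ Icc 0 T, ‖F t‖ ≤ Φ) {t0 : ℝ}
    (ht0 : 0 ≤ t0) (hR : ∀ t ∈ Icc t0 T, ‖z t‖ ≤ R) {a b : ℝ} (ha : t0 ≤ a) (hab : a ≤ b)
    (hb : b ≤ T) :
    ‖u b - u a‖ ^ 2 ≤ (4 * (Φ + ν * R + C * R ^ 2) * R) * (b - a) := by
  have h0T : (0 : ℝ) ≤ T := hT.le
  have hR0 : 0 ≤ R := (norm_nonneg _).trans (hR a ⟨ha, hab.trans hb⟩)
  have hΦ0 : 0 ≤ Φ := (norm_nonneg _).trans (hΦ 0 ⟨le_rfl, h0T⟩)
  have hC := Fr.C0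
  have hi1 : Integrable u1 (volume.restrict (Ioc 0 T)) := S.u1m.integrable (by norm_num)
  have e1 := sq_prim (g := fun s => u s - u a) S.u1m (fun x y hx hxy hy => by
    rw [← S.pu x y hx hxy hy]; abel) (ht0.trans ha) hab hb
  simp only [sub_self, norm_zero] at e1
  have e2 : ‖u b - u a‖ ^ 2 = ∫ s in a..b, 2 * ⟪u1 s, u s - u a⟫_ℝ := by
    rw [← e1]; ring
  rw [e2]
  have hma := S.mem a ⟨ht0.trans ha, hab.trans hb⟩
  have hbd : ∀ᵐ s ∂volume, s ∈ Ioc a b → ‖2 * ⟪u1 s, u s - u a⟫_ℝ‖ ≤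
      4 * (Φ + ν * R + C * R ^ 2) * R := by
    have hw := aeweak Fr hT hF S
    rw [ae_restrict_iff' measurableSet_Ioc] at hw
    filter_upwards [hw] with s k1 hs
    have hsT : s ∈ Ioc 0 T := ⟨lt_of_le_of_lt (ht0.trans ha) hs.1, hs.2.trans hb⟩
    have hsI := Ioc_subset_Icc_self hsT
    have ms := S.mem s hsI
    have m3 : (u s - u a, z s - z a) ∈ W := W.sub_mem ms hma
    have e3 := k1 hsT _ m3
    simp only at e3
    have n1 : ‖z s‖ ≤ R := hR s ⟨ha.trans hs.1.le, hsT.2⟩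
    have n2 : ‖z a‖ ≤ R := hR a ⟨ha, hab.trans hb⟩
    have n3 : ‖z s - z a‖ ≤ 2 * R := (norm_sub_le _ _).trans (by linarith)
    have n4 : ‖m (u s)‖ ≤ C * R ^ 2 := by
      refine (norm_m_le Fr ms).trans ?_
      simp only
      gcongr
    have n5 : ‖F s - ν • z s + m (u s)‖ ≤ Φ + ν * R + C * R ^ 2 := by
      calc ‖F s - ν • z s + m (u s)‖ ≤ ‖F s - ν • z s‖ + ‖m (u s)‖ := norm_add_le _ _
        _ ≤ (‖F s‖ + ‖ν • z s‖) + ‖m (u s)‖ := by gcongr; exact norm_sub_le _ _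
        _ ≤ (Φ + ν * R) + C * R ^ 2 := by
            rw [norm_smul, Real.norm_eq_abs, abs_of_pos hν]
            gcongr
            exact hΦ s hsI
    rw [e3, norm_mul, Real.norm_eq_abs, Real.norm_eq_abs, abs_two]
    calc 2 * |⟪F s - ν • z s + m (u s), z s - z a⟫_ℝ|
        ≤ 2 * (‖F s - ν • z s + m (u s)‖ * ‖z s - z a‖) := by
          gcongr
          exact abs_real_inner_le_norm _ _
      _ ≤ 2 * ((Φ + ν * R + C * R ^ 2) * (2 * R)) := by gcongr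
      _ = _ := by ring
  have h3 := intervalIntegral.norm_integral_le_of_norm_le_const_ae
    (f := fun s => 2 * ⟪u1 s, u s - u a⟫_ℝ) (a := a) (b := b)
    (C := 4 * (Φ + ν * R + C * R ^ 2) * R) (by
      filter_upwards [hbd] with s hs hs2
      rw [uIoc_of_le hab] at hs2
      exact hs hs2)
  rw [abs_of_nonneg (by linarith : (0 : ℝ) ≤ b - a)] at h3
  exact (Real.le_norm_self _).trans h3

/-- Hölder continuity with exponent `1/2` up to `τ` contradicts the criterion -/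
theorem no_half {v : ℝ → H} {τ t0 κ K0 : ℝ} (h0 : 0 ≤ t0) (hτ : t0 < τ) (hκ : 0 < κ)
    (hK : 0 ≤ K0)
    (hh : ∀ a b, t0 ≤ a → a ≤ b → b < τ → ‖v b - v a‖ ^ 2 ≤ K0 * (b - a))
    (hH : ∀ (U : H) (h0 : ℝ), 0 < h0 → h0 ≤ τ → ∃ h : ℝ, 0 < h ∧ h ≤ h0 ∧
      κ * h ^ (3 / 2 : ℝ) < ∫ t in (τ - h)..τ, ‖v t - U‖ ^ 2) : False := by
  -- a limit
  set d := τ - t0 with hd
  have hd0 : 0 < d := by linarith
  set s : ℕ → ℝ := fun n => τ - d / ((n : ℝ) + 1) with hs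
  have hsn : ∀ n, t0 ≤ s n ∧ s n < τ := by
    intro n
    have h1 : 0 < d / ((n : ℝ) + 1) := by positivity
    have h2 : d / ((n : ℝ) + 1) ≤ d := div_le_self hd0.le (by
      have : (0 : ℝ) ≤ n := by positivity
      linarith)
    simp only [hs]
    constructor <;> linarith
  have hslim : Tendsto s atTop (𝓝 τ) := by
    have h1 : Tendsto (fun n : ℕ => d / ((n : ℝ) + 1)) atTop (𝓝 0) := by
      have := (tendsto_one_div_add_atTop_nhds_zero_nat (𝕜 := ℝ)).const_mul d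
      simpa [div_eq_mul_inv] using this
    simpa [hs] using (tendsto_const_nhds (x := τ)).sub h1
  have hab : ∀ a b, t0 ≤ a → a < τ → t0 ≤ b → b < τ → ‖v b - v a‖ ^ 2 ≤ K0 * |b - a| := by
    intro a b ha ha' hb hb'
    rcases le_total a b with h | h
    · rw [abs_of_nonneg (by linarith)]
      exact hh a b ha h hb'
    · rw [abs_of_nonpos (by linarith), norm_sub_rev]
      have := hh b a hb h ha'
      linarith
  have hcau : CauchySeq (fun n => v (s n)) := by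
    rw [Metric.cauchySeq_iff']
    intro ε hε
    have hsc := hslim.cauchySeq
    rw [Metric.cauchySeq_iff'] at hsc
    obtain ⟨N, hN⟩ := hsc (ε ^ 2 / (K0 + 1)) (by positivity)
    refine ⟨N, fun n hn => ?_⟩
    have h1 := hN n hn
    rw [Real.dist_eq] at h1
    have h2 := hab (s N) (s n) (hsn N).1 (hsn N).2 (hsn n).1 (hsn n).2
    rw [dist_eq_norm]
    have h3 : ‖v (s n) - v (s N)‖ ^ 2 < ε ^ 2 := by
      rw [lt_div_iff₀ (by positivity)] at h1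
      have h4 : 0 ≤ |s n - s N| := abs_nonneg _
      nlinarith
    exact lt_of_pow_lt_pow_left₀ 2 hε.le h3
  obtain ⟨U, hU⟩ := cauchySeq_tendsto_of_complete hcau
  have hvU : ∀ t, t0 ≤ t → t < τ → ‖v t - U‖ ^ 2 ≤ K0 * (τ - t) := by
    intro t ht ht'
    have h1 : Tendsto (fun n => ‖v t - v (s n)‖ ^ 2) atTop (𝓝 (‖v t - U‖ ^ 2)) :=
      ((tendsto_const_nhds.sub hU).norm).pow 2
    have h2 : Tendsto (fun n => K0 * |t - s n|) atTop (𝓝 (K0 * |t - τ|)) :=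
      ((tendsto_const_nhds.sub hslim).abs).const_mul K0
    have h3 := le_of_tendsto_of_tendsto' h1 h2 (fun n => hab (s n) t (hsn n).1 (hsn n).2 ht ht')
    rwa [abs_of_nonpos (by linarith), neg_sub] at h3
  -- the contradiction
  set h1 : ℝ := min d ((κ / (K0 + 1)) ^ 2) with hh1
  have hh1p : 0 < h1 := lt_min hd0 (by positivity)
  obtain ⟨h, hp, hle, hlt⟩ := hH U h1 hh1p ((min_le_left _ _).trans (by linarith))
  have hhd : h ≤ d := hle.trans (min_le_left _ _)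
  have hhκ : h ≤ (κ / (K0 + 1)) ^ 2 := hle.trans (min_le_right _ _)
  have h4 : ∫ t in (τ - h)..τ, ‖v t - U‖ ^ 2 ≤ K0 * h * h := by
    have h5 := intervalIntegral.norm_integral_le_of_norm_le_const_ae
      (f := fun t => ‖v t - U‖ ^ 2) (a := τ - h) (b := τ) (C := K0 * h) (by
        have hne : ∀ᵐ t : ℝ, t ≠ τ := by simp [ae_iff, measure_singleton]
        filter_upwards [hne] with t ht ht2
        rw [uIoc_of_le (by linarith)] at ht2
        rw [Real.norm_eq_abs, abs_of_nonneg (by positivity)]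
        refine (hvU t (by linarith [ht2.1]) (lt_of_le_of_ne ht2.2 ht)).trans ?_
        exact mul_le_mul_of_nonneg_left (by linarith [ht2.1]) hK)
    have h6 : |τ - (τ - h)| = h := by rw [sub_sub_cancel, abs_of_pos hp]
    rw [h6] at h5
    exact (Real.le_norm_self _).trans h5
  have h5 : h ^ (3 / 2 : ℝ) = h * Real.sqrt h := by
    rw [Real.sqrt_eq_rpow, ← Real.rpow_one_add' hp.le (by norm_num)]
    norm_num
  have h6 : Real.sqrt h ≤ κ / (K0 + 1) := by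
    rw [← Real.sqrt_sq (by positivity : 0 ≤ κ / (K0 + 1))]
    exact Real.sqrt_le_sqrt hhκ
  have h7 : Real.sqrt h * Real.sqrt h = h := Real.mul_self_sqrt hp.le
  have h8 : 0 < Real.sqrt h := Real.sqrt_pos.2 hp
  have h9 : Real.sqrt h * (K0 + 1) ≤ κ := by
    rwa [le_div_iff₀ (by positivity)] at h6
  have h10 : K0 * h * h ≤ κ * (h * Real.sqrt h) := by
    have : K0 * h * h = (K0 * Real.sqrt h) * (h * Real.sqrt h) := by
      calc K0 * h * h = K0 * h * (Real.sqrt h * Real.sqrt h) := by rw [h7]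
        _ = _ := by ring
    rw [this]
    have h11 : 0 ≤ h * Real.sqrt h := by positivity
    refine mul_le_mul_of_nonneg_right ?_ h11
    nlinarith
  rw [h5] at hlt
  linarith

end

/-- the lower bound before the first singular time -/
theorem leray_tau (hode : S_ode) (he1 : S_est1) (he2 : S_est2) : ∀ c : ℝ, 0 < c →
    ∃ ε : ℝ, 0 < ε ∧
    ∀ (H K : Type) [NormedAddCommGroup H] [InnerProductSpace ℝ H] [CompleteSpace H]
      [NormedAddCommGroup K] [InnerProductSpace ℝ K] [CompleteSpace K]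
      (W : Submodule ℝ (H × K)) (m : H → K) (C ν τ κ : ℝ) (F F1 : ℝ → K) (v : ℝ → H) (Φ G : ℝ),
      Frame W m C → Univ W m c → 0 < ν → 0 < τ → 0 < κ → FH τ F F1 → 0 ≤ Φ →
      (∀ t ∈ Icc 0 τ, ‖F t‖ ≤ Φ) → 0 ≤ G → ∫ s in (0 : ℝ)..τ, ‖F1 s‖ ^ 2 ≤ G →
      (∀ t ∈ Ioo 0 τ, ∃ (u u1 : ℝ → H) (z z1 : ℝ → K), Str W m ν t F u u1 z z1 ∧
        ∀ s ∈ Icc 0 t, v s = u s) →
      (∀ (U : H) (h0 : ℝ), 0 < h0 → h0 ≤ τ → ∃ h : ℝ, 0 < h ∧ h ≤ h0 ∧
        κ * h ^ (3 / 2 : ℝ) < ∫ t in (τ - h)..τ, ‖v t - U‖ ^ 2) →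
      ∀ t0 ∈ Ico 0 τ, ∀ ζ : K, (v t0, ζ) ∈ W →
        ε * ν ^ (3 / 2 : ℝ) < (‖ζ‖ ^ 2 + (Φ ^ 2 + (τ - t0) * G) / ν ^ 2) * Real.sqrt (τ - t0) := by
  intro c hc
  obtain ⟨ε, C7, hε, hC7, hL⟩ := leray hode he1 he2 c hc
  refine ⟨ε, hε, ?_⟩
  intro H K _ _ _ _ _ _ W m C ν τ κ F F1 v Φ G Fr Un hν hτ hκ hF hΦ0 hΦ hG0 hG hex hH t0 ht0 ζ hζ
  by_contra hcon
  rw [not_lt] at hcon
  set Q : ℝ := C7 * (‖ζ‖ ^ 2 + (Φ ^ 2 + (τ - t0) * G) / ν ^ 2) with hQ
  have hτt : 0 < τ - t0 := by linarith [ht0.2]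
  have hQ0 : 0 ≤ Q := by positivity
  set R := Real.sqrt Q with hR
  have hC := Fr.C0
  have hF1i : IntegrableOn (fun s => ‖F1 s‖ ^ 2) (Ioc 0 τ) :=
    (memLp_two_iff_integrable_sq_norm hF.memLp.aestronglyMeasurable).mp hF.memLp
  refine no_half (v := v) (τ := τ) (t0 := t0) (κ := κ)
    (K0 := 4 * (Φ + ν * R + C * R ^ 2) * R) ht0.1 ht0.2 hκ (by positivity) ?_ hH
  intro a b ha hab hb
  rcases eq_or_lt_of_le (ha.trans hab) with hbt | hbt
  · have : a = b := le_antisymm hab (by linarith)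
    rw [this]
    simp
  have hb0 : 0 < b := lt_of_le_of_lt ht0.1 hbt
  obtain ⟨u, u1, z, z1, S, hv⟩ := hex b ⟨hb0, hb⟩
  have hFb : FH b F F1 := ⟨hF.memLp.mono_measure (Measure.restrict_mono
    (Ioc_subset_Ioc_right hb.le) le_rfl), fun x y hx hxy hy => hF.prim x y hx hxy (hy.trans hb.le)⟩
  have hz0 : z t0 = ζ := by
    have h1 := S.mem t0 ⟨ht0.1, hbt.le⟩
    rw [← hv t0 ⟨ht0.1, hbt.le⟩] at h1
    exact grad_unique Fr h1 hζ
  have hGb : ∫ s in (0 : ℝ)..b, ‖F1 s‖ ^ 2 ≤ G := by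
    refine le_trans ?_ hG
    rw [intervalIntegral.integral_of_le hb0.le, intervalIntegral.integral_of_le hτ.le]
    exact setIntegral_mono_set hF1i (Eventually.of_forall fun s => by positivity)
      (Ioc_subset_Ioc_right hb.le).eventuallyLE
  have hmono : (Φ ^ 2 + (b - t0) * G) / ν ^ 2 ≤ (Φ ^ 2 + (τ - t0) * G) / ν ^ 2 := by gcongr
  have hbt0 : 0 ≤ (Φ ^ 2 + (b - t0) * G) / ν ^ 2 := by
    have : 0 ≤ b - t0 := by linarith
    positivity
  have key := hL H K W m C ν b F F1 u u1 z z1 Φ G Fr Un hν hb0 hFb S hΦ0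
    (fun t ht => hΦ t ⟨ht.1, ht.2.trans hb.le⟩) hG0 hGb t0 ⟨ht0.1, hbt⟩ (by
      rw [hz0]
      refine le_trans ?_ hcon
      have : Real.sqrt (b - t0) ≤ Real.sqrt (τ - t0) := Real.sqrt_le_sqrt (by linarith)
      gcongr)
  have hRb : ∀ t ∈ Icc t0 b, ‖z t‖ ≤ R := by
    intro t ht
    refine Real.le_sqrt_of_sq_le ((key t ht).trans ?_)
    rw [hz0, hQ]
    gcongr
  have h2 := hoelder_half Fr hν hb0 hFb S (fun t ht => hΦ t ⟨ht.1, ht.2.trans hb.le⟩) ht0.1 hRb ha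
    hab le_rfl
  rw [hv a ⟨ht0.1.trans ha, hab⟩, hv b ⟨hb0.le, le_rfl⟩]
  exact h2

end Pool.Agent.U571.AP
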