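import Pool.Agent.U571.AP.Pub

/-!
# The criterion in a domain
-/

set_option autoImplicit false
set_option linter.all false

open MeasureTheory Set Filter Topology
open scoped InnerProductSpace ENNReal ContDiff

namespace Pool.Agent.U571.AP

open H772R2.NS H772R2.NS.Pub H772R2.NSR H772R2.NSG
open Pool.Agent.W795.TQ
open Pool.Agent.W795.ES (stretch stretch_eq)

theorem crit_mid (hit : S_iter) (hode : S_ode) (htp : S_dtp)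
    (he1 : S_est1) (he2 : S_est2) (hloc : S_loc) (huni : S_uni) (hun : S_univ) :
    ∀ ν T A δ : ℝ, 0 < ν → 0 < T → 0 < A → 0 < δ → ∃ M : ℝ,
    ∀ (Ω : Set E3), IsOpen Ω → Bornology.IsBounded Ω →
    ∀ (F F' : ℝ → L2M Ω), MemLp F' 2 (volume.restrict (Ioc 0 T)) →
    (∀ a b, 0 ≤ a → a ≤ b → b ≤ T → F b - F a = ∫ s in a..b, F' s) →
    (∀ t ∈ Icc 0 T, ‖F t‖ ≤ A) → ∫ s in (0 : ℝ)..T, ‖F' s‖ ^ 2 ≤ A ^ 2 →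
    ∀ (u : ℝ → L2V Ω) (z : ℝ → L2M Ω), AEStronglyMeasurable u (volume.restrict (Ioc 0 T)) →
    (∀ᵐ t ∂(volume.restrict (Ioc 0 T)), (u t, z t) ∈ graphW Ω) →
    MemLp z 2 (volume.restrict (Ioc 0 T)) →
    (∀ φ : E3 → E3, H772R2.NS.IsTest Ω φ → ∀ t ∈ Icc 0 T,
      (∫ x in (show Set R3 from Ω), ⟪L2.fn (Ω := Ω) (E := R3) (u t) x, (φ : R3 → R3) x⟫_ℝ)
        - (∫ x in (show Set R3 from Ω), ⟪L2.fn (Ω := Ω) (E := R3) (u 0) x, (φ : R3 → R3) x⟫_ℝ)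
      = ∫ s in (0 : ℝ)..t, Pub.rhs (Ω := Ω) ν (u s) (z s) (F s) φ) →
    (∀ t ∈ Icc 0 T, ‖u t‖ ^ 2 / 2 + ν * (∫ s in (0 : ℝ)..t, ‖z s‖ ^ 2)
      ≤ ‖u 0‖ ^ 2 / 2 + ∫ s in (0 : ℝ)..t, ⟪F s, z s⟫_ℝ) →
    ∀ z0 : L2M Ω, (u 0, z0) ∈ graphW Ω → ‖u 0‖ ≤ A → ‖z0‖ ≤ A →
    (∃ h : L2V Ω, ∀ φ : E3 → E3, H772R2.NS.IsTest Ω φ →
      Pub.rhs (Ω := Ω) ν (u 0) z0 (F 0) φ
        = ∫ x in (show Set R3 from Ω), ⟪L2.fn (Ω := Ω) (E := R3) h x, (φ : R3 → R3) x⟫_ℝ) →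
    ∀ (η : ℝ) (E E' : ℝ → L2M Ω) (v v' : ℝ → L2V Ω) (y y' : ℝ → L2M Ω) (Λ : ℝ → ℝ),
    0 < η → η ≤ 1 → MemLp E' 2 (volume.restrict (Ioc 0 T)) →
    (∀ a b, 0 ≤ a → a ≤ b → b ≤ T → E b - E a = ∫ s in a..b, E' s) →
    (∀ t ∈ Icc 0 T, (v t, y t) ∈ graphW Ω) →
    (∀ᵐ s ∂(volume.restrict (Ioc 0 T)), (v' s, y' s) ∈ graphW Ω) →
    (∃ c, ∀ᵐ s ∂(volume.restrict (Ioc 0 T)), ‖v' s‖ ≤ c) →
    MemLp v' 2 (volume.restrict (Ioc 0 T)) → MemLp y' 2 (volume.restrict (Ioc 0 T)) →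
    (∀ a b, 0 ≤ a → a ≤ b → b ≤ T → v b - v a = ∫ s in a..b, v' s) →
    (∀ a b, 0 ≤ a → a ≤ b → b ≤ T → y b - y a = ∫ s in a..b, y' s) →
    (∀ φ : E3 → E3, H772R2.NS.IsTest Ω φ → ∀ t ∈ Icc 0 T,
      (∫ x in (show Set R3 from Ω), ⟪L2.fn (Ω := Ω) (E := R3) (v t) x, (φ : R3 → R3) x⟫_ℝ)
        - (∫ x in (show Set R3 from Ω), ⟪L2.fn (Ω := Ω) (E := R3) (v 0) x, (φ : R3 → R3) x⟫_ℝ)
      = ∫ s in (0 : ℝ)..t, Pub.rhs (Ω := Ω) ν (v s) (y s) (E s) φ) →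
    (∀ t ∈ Icc 0 T, ‖E t‖ ≤ A) → ∫ s in (0 : ℝ)..T, ‖E' s‖ ^ 2 ≤ A ^ 2 → ‖u 0 - v 0‖ ≤ η →
    ∫ s in (0 : ℝ)..T, ‖F s - E s‖ ^ 2 ≤ η ^ 2 →
    (∃ t1 > 0, ∀ t ∈ Icc 0 t1, ‖v t - v 0‖ ≤ A * t) →
    (∀ t, 0 ≤ Λ t) → IntervalIntegrable Λ volume 0 T →
    (∀ᵐ t ∂(volume.restrict (Ioc 0 T)), ∀ p ∈ graphW Ω,
      -stretch (Ω := (show Set R3 from Ω)) (y t) p.1
        ≤ (1 - δ) * ν * ‖p.2‖ ^ 2 + Λ t * ‖p.1‖ ^ 2) →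
    ∫ s in (0 : ℝ)..T, Λ s < 2 / 3 * Real.log (1 / η) - M →
    ∃ u' G1 G', IsStrong (show Set R3 from Ω) ν T F u u' G1 G' := by
  intro ν T A δ hν hT hA hδ
  obtain ⟨c, hc, hU⟩ := hun
  obtain ⟨M, hM⟩ := abs_crit hit hode htp he1 he2 hloc huni c hc ν T A δ hν hT hA hδ
  refine ⟨M, ?_⟩
  intro Ω hΩ hb F F' hF1 hF hFA hF1A u z hmeas hmem hz2 heqn hen z0 h0 hu0A hz0A hg
    η E E' v v' y y' Λ hη hη1 hE1 hE mem mem1 bd v1m y1m pv py hveqn hEA hE1A hinit hres hslow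
    hΛ0 hΛi hform hlt
  obtain ⟨C, Fr⟩ := exists_frame hΩ hb
  obtain ⟨g0, hg0⟩ := hg
  have hm : MeasurableSet Ω := hΩ.measurableSet
  have hcomp : ∀ p ∈ graphW Ω, ⟪F 0 - ν • z0 + tensL (u 0), p.2⟫_ℝ = ⟪g0, p.1⟫_ℝ := by
    refine compat_ext ?_
    rintro p ⟨φ, k1, k2, k3⟩
    rw [← pub_rhs hm ν (F 0) h0 k3, ← pub_inner (Ω := Ω) g0 k2]
    exact hg0 φ k1
  have hFc : ContinuousOn F (Icc 0 T) := prim_cont hF1 hF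
  have hLH := lh_mid hΩ hFc Fr hmeas hmem hz2 heqn hen
  have hFE : FH T E E' := ⟨hE1, hE⟩
  have hS := str_of_pub (ν := ν) hΩ hT Fr hFE mem mem1 bd v1m y1m pv py hveqn
  obtain ⟨w, w1, q, q1, k1, k2⟩ := hM (L2V Ω) (L2M Ω) (graphW Ω) tensL C F F' (u 0) g0 z0 u z η
    E E' v v' y y' Λ Fr (hU _ hΩ) (rellich_W hΩ hb) ⟨hF1, hF⟩ h0 hcomp hLH hu0A hz0A hFA hF1A
    hη hη1 ⟨hFE, hS, hEA, hE1A, hinit, hres, hslow, hΛ0, hΛi, by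
      filter_upwards [hform] with t ht
      intro p hp
      have h1 := ht p hp
      rw [stretch_eq hm (y t) hp] at h1
      exact h1⟩ hlt
  exact ⟨w1, q, q1, strong_of_str hΩ hT k1 k2⟩

end Pool.Agent.U571.AP
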