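import Pool.Agent.U571.AP.Crit
import Pool.Agent.W795.ES.Pub

/-!
# From the public definitions to the abstract frame
-/

set_option autoImplicit false
set_option linter.all false

open MeasureTheory Set Filter Topology
open scoped InnerProductSpace ENNReal ContDiff

namespace Pool.Agent.U571.AP

open H772R2.NS H772R2.NS.Pub H772R2.NSR H772R2.NSG
open Pool.Agent.W795.TQ
open Pool.Agent.W790.TQ (sq_prim)

theorem mc {H K : Type} [NormedAddCommGroup H] [InnerProductSpace ℝ H] [CompleteSpace H]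
    [NormedAddCommGroup K] [InnerProductSpace ℝ K] [CompleteSpace K]
    {W : Submodule ℝ (H × K)} {m : H → K} {C T Z : ℝ} (Fr : Frame W m C) {u : ℝ → H} {z : ℝ → K}
    (uc : ContinuousOn u (Icc 0 T)) (zc : ContinuousOn z (Icc 0 T))
    (mem : ∀ t ∈ Icc 0 T, (u t, z t) ∈ W) (bz : ∀ t ∈ Icc 0 T, ‖z t‖ ≤ Z) :
    ContinuousOn (fun s => m (u s)) (Icc 0 T) := by
  intro t ht
  rw [ContinuousWithinAt, tendsto_iff_norm_sub_tendsto_zero]
  have h1 : Tendsto (fun s => C * (‖u s - u t‖ * ‖z s - z t‖ ^ 3 * (Z + Z) ^ 4))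
      (𝓝[Icc 0 T] t) (𝓝 (C * (0 * 0 ^ 3 * (Z + Z) ^ 4))) :=
    (((tendsto_iff_norm_sub_tendsto_zero.mp (uc t ht)).mul
      ((tendsto_iff_norm_sub_tendsto_zero.mp (zc t ht)).pow 3)).mul_const _).const_mul _
  have e0 : C * (0 * 0 ^ 3 * (Z + Z) ^ 4) = 0 := by ring
  rw [e0] at h1
  rw [Metric.tendsto_nhds]
  intro ε hε
  filter_upwards [h1.eventually (gt_mem_nhds (pow_pos hε 4)), self_mem_nhdsWithin] with s hs hsI
  rw [dist_zero_right, norm_norm]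
  have h2 := Fr.lips _ (mem s hsI) _ (mem t ht)
  have h3 := bz s hsI
  have h4 := bz t ht
  have hC := Fr.C0
  refine lt_of_pow_lt_pow_left₀ 4 hε.le (lt_of_le_of_lt h2 (lt_of_le_of_lt ?_ hs))
  gcongr

theorem gcont {H K : Type} [NormedAddCommGroup H] [InnerProductSpace ℝ H] [CompleteSpace H]
    [NormedAddCommGroup K] [InnerProductSpace ℝ K] [CompleteSpace K]
    {W : Submodule ℝ (H × K)} {m : H → K} {C T ν : ℝ} (Fr : Frame W m C) {F : ℝ → K} {u : ℝ → H}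
    {z : ℝ → K} (Fc : ContinuousOn F (Icc 0 T))
    (uc : ContinuousOn u (Icc 0 T)) (zc : ContinuousOn z (Icc 0 T))
    (mem : ∀ t ∈ Icc 0 T, (u t, z t) ∈ W) :
    ContinuousOn (fun s => F s - ν • z s + m (u s)) (Icc 0 T) := by
  obtain ⟨Z, hZ⟩ := (isCompact_Icc.image_of_continuousOn zc).isBounded.exists_norm_le
  exact (Fc.sub (continuousOn_const.smul zc)).add (mc Fr uc zc mem fun t ht => hZ _ ⟨t, ht, rfl⟩)

/-- the energy equality from the equation -/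
theorem str_of_weak {H K : Type} [NormedAddCommGroup H] [InnerProductSpace ℝ H] [CompleteSpace H]
    [NormedAddCommGroup K] [InnerProductSpace ℝ K] [CompleteSpace K]
    {W : Submodule ℝ (H × K)} {m : H → K} {C ν T : ℝ} (Fr : Frame W m C) (hT : 0 < T)
    {F F1 : ℝ → K} {u u1 : ℝ → H} {z z1 : ℝ → K} (hF : FH T F F1)
    (mem : ∀ t ∈ Icc 0 T, (u t, z t) ∈ W)
    (mem1 : ∀ᵐ s ∂(volume.restrict (Ioc 0 T)), (u1 s, z1 s) ∈ W)
    (bd : ∃ c, ∀ᵐ s ∂(volume.restrict (Ioc 0 T)), ‖u1 s‖ ≤ c)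
    (u1m : MemLp u1 2 (volume.restrict (Ioc 0 T))) (z1m : MemLp z1 2 (volume.restrict (Ioc 0 T)))
    (pu : ∀ a b, 0 ≤ a → a ≤ b → b ≤ T → u b - u a = ∫ s in a..b, u1 s)
    (pz : ∀ a b, 0 ≤ a → a ≤ b → b ≤ T → z b - z a = ∫ s in a..b, z1 s)
    (weak : ∀ p ∈ W, ∀ t ∈ Icc 0 T, ⟪u t - u 0, p.1⟫_ℝ
      = ∫ s in (0 : ℝ)..t, ⟪F s - ν • z s + m (u s), p.2⟫_ℝ) :
    Str W m ν T F u u1 z z1 := by
  have uc := prim_cont u1m pu
  have zc := prim_cont z1m pz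
  have Fc := prim_cont hF.memLp hF.prim
  obtain ⟨Z, hZ⟩ := (isCompact_Icc.image_of_continuousOn zc).isBounded.exists_norm_le
  have gc : ContinuousOn (fun s => F s - ν • z s + m (u s)) (Icc 0 T) :=
    (Fc.sub (continuousOn_const.smul zc)).add (mc Fr uc zc mem fun t ht => hZ _ ⟨t, ht, rfl⟩)
  have hne : ∀ᵐ s ∂(volume.restrict (Ioc 0 T)), s ≠ T := by
    refine ae_restrict_of_ae ?_
    simp [ae_iff, measure_singleton]
  have hae : ∀ᵐ s ∂(volume.restrict (Ioc 0 T)), ∀ p ∈ W,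
      ⟪u1 s, p.1⟫_ℝ = ⟪F s - ν • z s + m (u s), p.2⟫_ℝ := by
    filter_upwards [ae_deriv_of_prim hT (memLp_ii hT.le u1m) pu,
      ae_restrict_mem measurableSet_Ioc, hne] with s hd hs hsT p hp
    have hs' : s ∈ Ioo 0 T := ⟨hs.1, lt_of_le_of_ne hs.2 hsT⟩
    have h1 : HasDerivAt (fun t => ⟪u t, p.1⟫_ℝ) ⟪u1 s, p.1⟫_ℝ s := by
      have := hd.inner ℝ (hasDerivAt_const s p.1)
      simpa using this
    have h2 : HasDerivAt (fun t => ⟪u 0, p.1⟫_ℝ + ∫ r in (0 : ℝ)..t,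
        ⟪F r - ν • z r + m (u r), p.2⟫_ℝ) ⟪F s - ν • z s + m (u s), p.2⟫_ℝ s :=
      (hasDerivAt_prim (β := fun r => ⟪F r - ν • z r + m (u r), p.2⟫_ℝ)
        (gc.inner continuousOn_const) hs').const_add _
    refine h1.unique (h2.congr_of_eventuallyEq ?_)
    filter_upwards [Icc_mem_nhds hs'.1 hs'.2] with t ht
    rw [← weak p hp t ht, inner_sub_left]
    ring
  refine ⟨mem, mem1, bd, u1m, z1m, pu, pz, weak, ?_⟩
  intro t ht
  have hsub : uIcc 0 t ⊆ Icc 0 T := by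
    rw [uIcc_of_le ht.1]
    exact Icc_subset_Icc le_rfl ht.2
  have i1 : IntervalIntegrable (fun s => ⟪F s, z s⟫_ℝ) volume 0 t :=
    ContinuousOn.intervalIntegrable ((Fc.mono hsub).inner (zc.mono hsub))
  have i2 : IntervalIntegrable (fun s => ‖z s‖ ^ 2) volume 0 t :=
    ContinuousOn.intervalIntegrable ((zc.mono hsub).norm.pow 2)
  have e1 := sq_prim u1m pu le_rfl ht.1 ht.2
  have e2 : ∫ s in (0 : ℝ)..t, 2 * ⟪u1 s, u s⟫_ℝ =
      ∫ s in (0 : ℝ)..t, (2 * ⟪F s, z s⟫_ℝ - 2 * ν * ‖z s‖ ^ 2) := by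
    rw [intervalIntegral.integral_of_le ht.1, intervalIntegral.integral_of_le ht.1]
    refine integral_congr_ae ?_
    filter_upwards [ae_mono (Measure.restrict_mono (Ioc_subset_Ioc_right ht.2) le_rfl) hae,
      ae_restrict_mem measurableSet_Ioc] with s k1 hs
    have ms := mem s ⟨hs.1.le, hs.2.trans ht.2⟩
    have k2 := k1 _ ms
    have k3 := Fr.ortho _ ms
    simp only at k2 k3
    rw [k2, inner_add_left, inner_sub_left, real_inner_smul_left, real_inner_self_eq_norm_sq, k3]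
    ring
  rw [e2, intervalIntegral.integral_sub (i1.const_mul 2) (i2.const_mul (2 * ν)),
    intervalIntegral.integral_const_mul, intervalIntegral.integral_const_mul (2 * ν)] at e1
  linarith

/-- the weak form for all test elements -/
theorem weak_all {Ω : Set E3} (hΩ : IsOpen Ω) {ν T C : ℝ}
    (Fr : Frame (graphW Ω) (tensL (Ω := Ω)) C) {F : ℝ → L2M Ω} (Fc : ContinuousOn F (Icc 0 T))
    {u : ℝ → L2V Ω} {z : ℝ → L2M Ω} (uc : ContinuousOn u (Icc 0 T)) (zc : ContinuousOn z (Icc 0 T))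
    (mem : ∀ t ∈ Icc 0 T, (u t, z t) ∈ graphW Ω)
    (heqn : ∀ φ : E3 → E3, H772R2.NS.IsTest Ω φ → ∀ t ∈ Icc 0 T,
      (∫ x in (show Set R3 from Ω), ⟪L2.fn (Ω := Ω) (E := R3) (u t) x, (φ : R3 → R3) x⟫_ℝ)
        - (∫ x in (show Set R3 from Ω), ⟪L2.fn (Ω := Ω) (E := R3) (u 0) x, (φ : R3 → R3) x⟫_ℝ)
      = ∫ s in (0 : ℝ)..t, Pub.rhs (Ω := Ω) ν (u s) (z s) (F s) φ) :
    ∀ p ∈ graphW Ω, ∀ t ∈ Icc 0 T, ⟪u t - u 0, p.1⟫_ℝ
      = ∫ s in (0 : ℝ)..t, ⟪F s - ν • z s + tensL (u s), p.2⟫_ℝ := by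
  have hm : MeasurableSet Ω := hΩ.measurableSet
  have gc := gcont (ν := ν) Fr Fc uc zc mem
  intro p hp t ht
  have hsub : uIcc 0 t ⊆ Icc 0 T := by
    rw [uIcc_of_le ht.1]
    exact Icc_subset_Icc le_rfl ht.2
  have hGt : IntervalIntegrable (fun s => F s - ν • z s + tensL (u s)) volume 0 t :=
    (gc.mono hsub).intervalIntegrable
  have hGt' : Integrable (fun s => F s - ν • z s + tensL (u s)) (volume.restrict (Ioc 0 t)) :=
    (intervalIntegrable_iff_integrableOn_Ioc_of_le ht.1).mp hGt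
  set I : L2M Ω := ∫ s in (0 : ℝ)..t, (F s - ν • z s + tensL (u s)) with hI
  have hint : ∀ q : L2V Ω × L2M Ω, ∫ s in (0 : ℝ)..t, ⟪F s - ν • z s + tensL (u s), q.2⟫_ℝ
      = ⟪I, q.2⟫_ℝ := by
    intro q
    rw [hI, intervalIntegral.integral_of_le ht.1, intervalIntegral.integral_of_le ht.1]
    have := integral_inner (𝕜 := ℝ) hGt' q.2
    rw [real_inner_comm, ← this]
    exact integral_congr_ae (Eventually.of_forall fun s => real_inner_comm _ _)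
  have key := graphW_induction (fun q : L2V Ω × L2M Ω => ⟪u t - u 0, q.1⟫_ℝ - ⟪I, q.2⟫_ℝ)
    (by fun_prop) (by
    rintro q ⟨φ, k1, k2, k3⟩
    have e := heqn φ k1 t ht
    have e1 := pub_inner (Ω := Ω) (u t) k2
    have e2 := pub_inner (Ω := Ω) (u 0) k2
    have e3 : ∫ s in (0 : ℝ)..t, Pub.rhs (Ω := Ω) ν (u s) (z s) (F s) φ
        = ∫ s in (0 : ℝ)..t, ⟪F s - ν • z s + tensL (u s), q.2⟫_ℝ := by
      refine intervalIntegral.integral_congr ?_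
      intro s hs
      exact pub_rhs hm ν (F s) (mem s (hsub hs)) k3
    have h2 : ⟪u t - u 0, q.1⟫_ℝ = ⟪u t, q.1⟫_ℝ - ⟪u 0, q.1⟫_ℝ := inner_sub_left _ _ _
    have e' := ((congrArg₂ (· - ·) e1 e2).symm.trans e).trans (e3.trans (hint q))
    show ⟪u t - u 0, q.1⟫_ℝ - ⟪I, q.2⟫_ℝ = 0
    rw [h2]
    exact sub_eq_zero.mpr e') hp
  have key' : ⟪u t - u 0, p.1⟫_ℝ = ⟪I, p.2⟫_ℝ := sub_eq_zero.mp key
  rw [key', ← hint p]

/-- from the public definition of strong solutions to the abstract frame -/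
theorem str_of_pub {Ω : Set E3} (hΩ : IsOpen Ω) {ν T C : ℝ} (hT : 0 < T)
    (Fr : Frame (graphW Ω) (tensL (Ω := Ω)) C) {F F1 : ℝ → L2M Ω} (hF : FH T F F1)
    {u u1 : ℝ → L2V Ω} {z z1 : ℝ → L2M Ω} (mem : ∀ t ∈ Icc 0 T, (u t, z t) ∈ graphW Ω)
    (mem1 : ∀ᵐ s ∂(volume.restrict (Ioc 0 T)), (u1 s, z1 s) ∈ graphW Ω)
    (bd : ∃ c, ∀ᵐ s ∂(volume.restrict (Ioc 0 T)), ‖u1 s‖ ≤ c)
    (u1m : MemLp u1 2 (volume.restrict (Ioc 0 T))) (z1m : MemLp z1 2 (volume.restrict (Ioc 0 T)))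
    (pu : ∀ a b, 0 ≤ a → a ≤ b → b ≤ T → u b - u a = ∫ s in a..b, u1 s)
    (pz : ∀ a b, 0 ≤ a → a ≤ b → b ≤ T → z b - z a = ∫ s in a..b, z1 s)
    (heqn : ∀ φ : E3 → E3, H772R2.NS.IsTest Ω φ → ∀ t ∈ Icc 0 T,
      (∫ x in (show Set R3 from Ω), ⟪L2.fn (Ω := Ω) (E := R3) (u t) x, (φ : R3 → R3) x⟫_ℝ)
        - (∫ x in (show Set R3 from Ω), ⟪L2.fn (Ω := Ω) (E := R3) (u 0) x, (φ : R3 → R3) x⟫_ℝ)
      = ∫ s in (0 : ℝ)..t, Pub.rhs (Ω := Ω) ν (u s) (z s) (F s) φ) :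
    Str (graphW Ω) tensL ν T F u u1 z z1 :=
  str_of_weak Fr hT hF mem mem1 bd u1m z1m pu pz
    (weak_all hΩ Fr (prim_cont hF.memLp hF.prim) (prim_cont u1m pu) (prim_cont z1m pz) mem heqn)

end Pool.Agent.U571.AP
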